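import Pool.Agent.Lib.PosetForcing.Model

set_option autoImplicit false

/-! Pairs, graphs, functions, names for elements of a type, check names. -/

namespace Pool.Agent.Lib.PosetForcing

universe u v

section internal
variable {M : Type v} {mem : M → M → Prop}

theorem IsZFC.upair_unique (h : IsZFC mem) {p p' a b : M} (h1 : IsUPair mem p a b)
    (h2 : IsUPair mem p' a b) : p = p' := h.ext _ _ fun z => (h1 z).trans (h2 z).symm

theorem IsZFC.pair_unique (h : IsZFC mem) {p p' a b : M} (h1 : IsPair mem p a b)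
    (h2 : IsPair mem p' a b) : p = p' := h.ext _ _ fun z => (h1 z).trans (h2 z).symm

theorem IsZFC.exists_pair (h : IsZFC mem) (a b : M) : ∃ p, IsPair mem p a b := by
  obtain ⟨s, hs⟩ := h.pair a a
  obtain ⟨t, ht⟩ := h.pair a b
  obtain ⟨p, hp⟩ := h.pair s t
  refine ⟨p, fun x => (hp x).trans ⟨?_, ?_⟩⟩
  · rintro (rfl | rfl)
    · exact Or.inl hs
    · exact Or.inr ht
  · rintro (h1 | h1)
    · exact Or.inl (h.upair_unique h1 hs)
    · exact Or.inr (h.upair_unique h1 ht)

theorem IsZFC.pair_inj (h : IsZFC mem) {p a b a' b' : M} (h1 : IsPair mem p a b)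
    (h2 : IsPair mem p a' b') : a = a' ∧ b = b' := by
  obtain ⟨s, hs⟩ := h.pair a a
  obtain ⟨t, ht⟩ := h.pair a b
  obtain ⟨t', ht'⟩ := h.pair a' b'
  have e1 : a = a' := by
    rcases (h2 s).1 ((h1 s).2 (Or.inl hs)) with h3 | h3
    · simpa using ((hs a').1 ((h3 a').2 (Or.inl rfl))).elim Eq.symm Eq.symm
    · simpa using ((hs a').1 ((h3 a').2 (Or.inl rfl))).elim Eq.symm Eq.symm
  subst e1
  refine ⟨rfl, ?_⟩
  have e2 : b = a ∨ b = b' := by
    rcases (h2 t).1 ((h1 t).2 (Or.inr ht)) with h3 | h3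
    · exact Or.inl (by simpa using (h3 b).1 ((ht b).2 (Or.inr rfl)))
    · exact (h3 b).1 ((ht b).2 (Or.inr rfl))
  have e3 : b' = a ∨ b' = b := by
    rcases (h1 t').1 ((h2 t').2 (Or.inr ht')) with h3 | h3
    · exact Or.inl (by simpa using (h3 b').1 ((ht' b').2 (Or.inr rfl)))
    · exact (h3 b').1 ((ht' b').2 (Or.inr rfl))
  rcases e2 with e2 | e2
  · rcases e3 with e3 | e3
    · exact e2.trans e3.symm
    · exact e3.symm
  · exact e2

/-- functions with the same domain and the same values are equal -/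
theorem IsZFC.fun_ext (h : IsZFC mem) {f g a : M} {V W : M → Prop} (hf : IsFunOn mem f a V)
    (hg : IsFunOn mem g a W) (e : ∀ x, mem x a → ∀ y, App mem f x y → App mem g x y) : f = g := by
  refine h.ext _ _ fun p => ⟨fun hp => ?_, fun hp => ?_⟩
  · obtain ⟨x, y, h1, h2, -⟩ := hf.1 p hp
    obtain ⟨p', h3, h4⟩ := e x h2 y ⟨p, hp, h1⟩
    exact h.pair_unique h4 h1 ▸ h3
  · obtain ⟨x, y, h1, h2, -⟩ := hg.1 p hp
    obtain ⟨y', p', h3, h4⟩ := hf.2.1 x h2
    obtain rfl := hg.2.2 x y y' ⟨p, hp, h1⟩ (e x h2 y' ⟨p', h3, h4⟩)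
    exact h.pair_unique h4 h1 ▸ h3

theorem IsZFC.app_val (h : IsZFC mem) {f a x y : M} {V : M → Prop} (hf : IsFunOn mem f a V)
    (e : App mem f x y) : mem x a ∧ V y := by
  obtain ⟨p, hp, h1⟩ := e
  obtain ⟨x', y', h2, h3⟩ := hf.1 p hp
  obtain ⟨rfl, rfl⟩ := h.pair_inj h1 h2
  exact h3

theorem IsZFC.app_restr (h : IsZFC mem) {g f n x y : M} (hg : IsRestr mem g f n) :
    App mem g x y ↔ App mem f x y ∧ mem x n := by
  constructor
  · rintro ⟨p, hp, h1⟩
    obtain ⟨h2, x', y', h3, h4⟩ := (hg p).1 hp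
    obtain ⟨rfl, rfl⟩ := h.pair_inj h1 h3
    exact ⟨⟨p, h2, h1⟩, h4⟩
  · rintro ⟨⟨p, hp, h1⟩, h2⟩
    exact ⟨p, (hg p).2 ⟨hp, x, y, h1, h2⟩, h1⟩

theorem IsZFC.isFunOn_restr (h : IsZFC mem) {g f n a : M} {V : M → Prop} (hg : IsRestr mem g f n)
    (hf : IsFunOn mem f a V) (hn : ∀ x, mem x n → mem x a) : IsFunOn mem g n V := by
  refine ⟨fun p hp => ?_, fun x hx => ?_, fun x y y' h1 h2 => ?_⟩
  · obtain ⟨h2, x, y, h3, h4⟩ := (hg p).1 hp
    exact ⟨x, y, h3, h4, (h.app_val hf ⟨p, h2, h3⟩).2⟩
  · obtain ⟨y, hy⟩ := hf.2.1 x (hn x hx)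
    exact ⟨y, (h.app_restr hg).2 ⟨hy, hx⟩⟩
  · exact hf.2.2 x y y' ((h.app_restr hg).1 h1).1 ((h.app_restr hg).1 h2).1

end internal

variable {P : Type u} [Preorder P]

instance clopen_isUPair (p a b : Name P) :
    Clopen fun U : Gen P => IsUPair Mod.mem (p.val U) (a.val U) (b.val U) := by
  unfold IsUPair; infer_instance

instance clopen_isPair (p a b : Name P) :
    Clopen fun U : Gen P => IsPair Mod.mem (p.val U) (a.val U) (b.val U) := by
  unfold IsPair; infer_instance

instance clopen_app (f a b : Name P) :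
    Clopen fun U : Gen P => App Mod.mem (f.val U) (a.val U) (b.val U) := by
  unfold App; infer_instance

instance clopen_isFunOn (f a : Name P) (V : ∀ U : Gen P, Mod U → Prop)
    [∀ a : Name P, Clopen fun U => V U (a.val U)] :
    Clopen fun U : Gen P => IsFunOn Mod.mem (f.val U) (a.val U) (V U) := by
  unfold IsFunOn; infer_instance

instance clopen_isFun (f a b : Name P) :
    Clopen fun U : Gen P => IsFun Mod.mem (f.val U) (a.val U) (b.val U) := by
  unfold IsFun; infer_instance

instance clopen_isRestr (f a b : Name P) :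
    Clopen fun U : Gen P => IsRestr Mod.mem (f.val U) (a.val U) (b.val U) := by
  unfold IsRestr; infer_instance

variable [OrderTop P]

instance clopen_isOmega (a : Name P) :
    Clopen fun U : Gen P => IsOmega Mod.mem (a.val U) := by
  unfold IsOmega; infer_instance

/-- ordered pair name -/
def pairName (a b : Name P) : Name P := upairName (upairName a a) (upairName a b)

theorem isPair_pairName (a b : Name P) (U : Gen P) :
    IsPair Mod.mem ((pairName a b).val U) (a.val U) (b.val U) := by
  intro x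
  rw [pairName, mem_upairName]
  exact or_congr
    ⟨fun h => h ▸ mem_upairName a a U, fun h => (isZFC U).upair_unique h (mem_upairName a a U)⟩
    ⟨fun h => h ▸ mem_upairName a b U, fun h => (isZFC U).upair_unique h (mem_upairName a b U)⟩

/-- the name of the set of pairs `(X i, Y i)`, the pair being put in by the condition `c i` -/
def graphName {ι : Type u} (X Y : ι → Name P) (c : ι → P) : Name P :=
  .mk ι (fun i => pairName (X i) (Y i)) c

section graph
variable {ι : Type u} {X Y : ι → Name P} {c : ι → P}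

theorem forces_app_graph {p : P} (i : ι) (h : p ≤ c i) :
    Forces p fun U => App Mod.mem ((graphName X Y c).val U) ((X i).val U) ((Y i).val U) :=
  (forces_el_mem (b := graphName X Y c) i h).imp fun U h => ⟨_, h, isPair_pairName _ _ U⟩

theorem Forces.exists_app_graph {p : P} {a b : Name P}
    (h : Forces p fun U => App Mod.mem ((graphName X Y c).val U) (a.val U) (b.val U)) :
    ∃ q ≤ p, ∃ i, q ≤ c i ∧ Forces q fun U => a.val U = (X i).val U ∧ b.val U = (Y i).val U := by
  obtain ⟨z, hz⟩ := Forces.exists_name (Φ := fun U z =>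
    Mod.mem z ((graphName X Y c).val U) ∧ IsPair Mod.mem z (a.val U) (b.val U)) h
  obtain ⟨q, hq, i, h1, h2⟩ := (hz.imp fun _ h => h.1).exists_el
  refine ⟨q, hq, i, h1, ((hz.mono hq).and h2).imp fun U h => ?_⟩
  exact (isZFC U).pair_inj (h.2 ▸ h.1.2) (isPair_pairName (X i) (Y i) U)

theorem forces_forall_app_graph {Φ : ∀ U : Gen P, Mod U → Mod U → Prop}
    [∀ a b : Name P, Clopen fun U => Φ U (a.val U) (b.val U)] {p : P}
    (h : ∀ i, ∀ q ≤ p, q ≤ c i → ∃ r ≤ q, Forces r fun U => Φ U ((X i).val U) ((Y i).val U)) :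
    Forces p fun U => ∀ x y, App Mod.mem ((graphName X Y c).val U) x y → Φ U x y := by
  refine forces_forall fun a => forces_forall fun b => forces_imp fun q hq h1 => ?_
  obtain ⟨r, hr, i, h2, h3⟩ := h1.exists_app_graph
  obtain ⟨s, hs, h4⟩ := h i r (hr.trans hq) h2
  exact ⟨s, hs.trans hr, ((h3.mono hs).and h4).imp fun U h => h.1.1 ▸ h.1.2 ▸ h.2⟩

theorem forces_graph_functional {p : P}
    (h3 : ∀ i j, ∀ q ≤ p, q ≤ c i → q ≤ c j → (Forces q fun U => (X i).val U = (X j).val U) →
      ∃ r ≤ q, Forces r fun U => (Y i).val U = (Y j).val U) :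
    Forces p fun U => ∀ x y y', App Mod.mem ((graphName X Y c).val U) x y →
      App Mod.mem ((graphName X Y c).val U) x y' → y = y' := by
  refine (forces_forall_app_graph (Φ := fun U x y => ∀ x' y',
    App Mod.mem ((graphName X Y c).val U) x' y' → x = x' → y = y') fun i q hq hi =>
    ⟨q, le_rfl, forces_forall_app_graph fun j r hr hj => ⟨r, le_rfl, forces_imp
      fun s hs h => h3 i j s (hs.trans (hr.trans hq)) (hs.trans (hr.trans hi)) (hs.trans hj) h⟩⟩).imp
    fun U h x y y' g1 g2 => h x y g1 x y' g2 rfl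

theorem forces_isFunOn_graph {p : P} {a : Name P} {V : ∀ U : Gen P, Mod U → Prop}
    [∀ a : Name P, Clopen fun U => V U (a.val U)]
    (h1 : ∀ i, ∀ q ≤ p, q ≤ c i →
      ∃ r ≤ q, Forces r fun U => Mod.mem ((X i).val U) (a.val U) ∧ V U ((Y i).val U))
    (h2 : ∀ j, ∀ q ≤ p, q ≤ a.cond j →
      ∃ r ≤ q, ∃ i, r ≤ c i ∧ Forces r fun U => (a.el j).val U = (X i).val U)
    (h3 : ∀ i j, ∀ q ≤ p, q ≤ c i → q ≤ c j → (Forces q fun U => (X i).val U = (X j).val U) →
      ∃ r ≤ q, Forces r fun U => (Y i).val U = (Y j).val U) :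
    Forces p fun U => IsFunOn Mod.mem ((graphName X Y c).val U) (a.val U) (V U) := by
  refine Forces.and ?_ (Forces.and ?_ (forces_graph_functional h3))
  · refine forces_forall_mem (b := graphName X Y c) fun i q hq hi => ?_
    obtain ⟨r, hr, h⟩ := h1 i q hq hi
    exact ⟨r, hr, h.imp fun U h => ⟨_, _, isPair_pairName _ _ U, h⟩⟩
  · refine forces_forall_mem fun j q hq hj => ?_
    obtain ⟨r, hr, i, hi, h⟩ := h2 j q hq hj
    exact ⟨r, hr, (h.and (forces_app_graph i hi)).imp fun U h => ⟨(Y i).val U, by rw [h.1]; exact h.2⟩⟩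

end graph

/-- the name of the function `i ↦ Y i` on a family `X` of names -/
def funName {ι : Type u} (X Y : ι → Name P) : Name P := graphName X Y fun _ => ⊤

theorem app_funName {ι : Type u} (X Y : ι → Name P) (i : ι) (U : Gen P) :
    App Mod.mem ((funName X Y).val U) ((X i).val U) ((Y i).val U) :=
  of_forces_all (Φ := fun U => App Mod.mem ((funName X Y).val U) ((X i).val U) ((Y i).val U))
    (fun p => ⟨p, le_rfl, forces_app_graph (c := fun _ => ⊤) i le_top⟩) U

/-- names for the elements of a well-founded relation (Mostowski collapse) -/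
noncomputable def wfName {X : Type u} {r : X → X → Prop} (hr : WellFounded r) : X → Name P :=
  hr.fix fun x ih => fam fun y : {y // r y x} => ih y.1 y.2

theorem wfName_eq {X : Type u} {r : X → X → Prop} (hr : WellFounded r) (x : X) :
    (wfName hr x : Name P) = fam fun y : {y // r y x} => wfName hr y.1 :=
  hr.fix_eq _ x

theorem wfName_mem {X : Type u} {r : X → X → Prop} (hr : WellFounded r) {x y : X} (h : r y x)
    (U : Gen P) : Mod.mem ((wfName hr y).val U) ((wfName hr x).val U) := by
  rw [wfName_eq hr x]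
  exact mem_fam (fun y : {y // r y x} => wfName hr y.1) ⟨y, h⟩ U

/-- pairwise distinct names for the elements of a type -/
noncomputable def elt {X : Type u} (x : X) : Name P :=
  wfName (r := WellOrderingRel) IsWellFounded.wf x

theorem elt_inj {X : Type u} {x y : X} {U : Gen P} (h : (elt x).val U = (elt y).val U) :
    x = y := by
  rcases trichotomous_of WellOrderingRel x y with h1 | h1 | h1
  · exact absurd (h ▸ wfName_mem IsWellFounded.wf h1 U :
      Mod.mem ((elt y).val U) ((elt y).val U)) (Mod.not_mem_self _)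
  · exact h1
  · exact absurd (h ▸ wfName_mem IsWellFounded.wf h1 U :
      Mod.mem ((elt y).val U) ((elt y).val U)) (Mod.not_mem_self _)

theorem Forces.elt_inj {X : Type u} {x y : X} {p : P}
    (h : Forces p fun U => (elt x).val U = (elt y).val U) : x = y := by
  obtain ⟨U, hU⟩ := h.exists
  exact PosetForcing.elt_inj hU

theorem Forces.natName_inj {m n : ℕ} {p : P}
    (h : Forces p fun U => (natName m).val U = (natName n).val U) : m = n := by
  obtain ⟨U, hU⟩ := h.exists
  exact PosetForcing.natName_inj hU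

/-- the name of the set of all `elt x` -/
noncomputable def tyName (X : Type u) : Name P := fam fun x : X => elt x

theorem elt_mem_tyName {X : Type u} (x : X) (U : Gen P) :
    Mod.mem ((elt x).val U) ((tyName X).val U) := mem_fam (fun x : X => elt x) x U

/-- check names -/
def check : PSet.{u} → Name P
  | ⟨_, A⟩ => fam fun i => check (A i)

theorem fEq_check {x y : PSet.{u}} {p : P} : FEq (check x) (check y) p ↔ x.Equiv y := by
  induction x generalizing y p with
  | mk α A ih =>
    cases y with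
    | mk β B =>
      constructor
      · intro h
        refine ⟨fun a => ?_, fun b => ?_⟩
        · obtain ⟨r, -, j, -, h2⟩ := h.1 a p le_rfl le_top
          exact ⟨j, (ih a).1 h2⟩
        · obtain ⟨r, -, j, -, h2⟩ := h.2 b p le_rfl le_top
          exact ⟨j, (ih j).1 h2⟩
      · intro h
        refine ⟨fun a q _ _ => ?_, fun b q _ _ => ?_⟩
        · obtain ⟨b, hb⟩ := h.1 a
          exact ⟨q, le_rfl, b, le_top, (ih a).2 hb⟩
        · obtain ⟨a, ha⟩ := h.2 b
          exact ⟨q, le_rfl, a, le_top, (ih a).2 ha⟩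

theorem check_eq_iff {x y : PSet.{u}} {U : Gen P} :
    (check x).val U = (check y).val U ↔ x.Equiv y := by
  rw [val_eq_iff]
  simp only [fEq_check]
  exact ⟨fun h => (Ultrafilter.nonempty_of_mem h).elim fun _ h => h,
    fun h => Filter.univ_mem' fun _ => h⟩

theorem check_mem_iff {x y : PSet.{u}} {U : Gen P} :
    Mod.mem ((check x).val U) ((check y).val U) ↔ x ∈ y := by
  cases y with
  | mk β B =>
    constructor
    · intro h
      obtain ⟨p, hp⟩ := Ultrafilter.nonempty_of_mem (val_mem_iff.1 h)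
      obtain ⟨q, -, j, -, h2⟩ := hp p le_rfl
      exact ⟨j, fEq_check.1 h2⟩
    · rintro ⟨j, hj⟩
      rw [check_eq_iff.2 hj]
      exact mem_fam (fun i => check (B i)) j U

end Pool.Agent.Lib.PosetForcing
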