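import Pool.Agent.Lib.PosetForcing.ZFC

set_option autoImplicit false

/-! Statement layer, part 2: subsets, injections, cardinal comparison and `ω₁` inside `(M, mem)`. -/

namespace Pool.Agent.Lib.PosetForcing

universe v

variable {M : Type v} (mem : M → M → Prop)

/-- `a ⊆ b` -/
def IsSub (a b : M) : Prop := ∀ x, mem x a → mem x b

/-- `c` is the power set of `a` -/
def IsPow (c a : M) : Prop := ∀ x, mem x c ↔ IsSub mem x a

/-- `j : a → b` is injective -/
def IsInj (j a b : M) : Prop :=
  IsFun mem j a b ∧ ∀ x x' y, App mem j x y → App mem j x' y → x = x'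

/-- `|a| ≤ |b|` -/
def LeCard (a b : M) : Prop := ∃ j, IsInj mem j a b

/-- `w1 = ω₁`, where `w = ω`: an ordinal (a transitive set of transitive sets) that is
uncountable while all its elements are countable -/
def IsOmega1 (w1 w : M) : Prop :=
  (∀ x, mem x w1 → IsSub mem x w1) ∧ (∀ x y, mem x w1 → mem y x → IsSub mem y x) ∧
    ¬ LeCard mem w1 w ∧ ∀ x, mem x w1 → LeCard mem x w

end Pool.Agent.Lib.PosetForcing
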