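import Mathlib

set_option autoImplicit false

/-! Pigeonhole and delta-system lemmas for uncountable families. -/

namespace Pool.Agent.Lib.PosetForcing

theorem nonempty_of_not_countable {ι : Type*} {I : Set ι} (hI : ¬ I.Countable) : I.Nonempty :=
  Set.nonempty_iff_ne_empty.2 fun h => hI (h ▸ Set.countable_empty)

theorem exists_fiber {ι Y : Type*} [Countable Y] (f : ι → Y) {I : Set ι} (hI : ¬ I.Countable) :
    ∃ y, ¬ {i | i ∈ I ∧ f i = y}.Countable := by
  by_contra hcon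
  push Not at hcon
  exact hI ((Set.countable_iUnion hcon).mono fun i hi => Set.mem_iUnion.2 ⟨f i, And.intro hi rfl⟩)

theorem not_countable_diff {ι : Type*} {I E : Set ι} (hI : ¬ I.Countable) (hE : E.Countable) :
    ¬ (I \ E).Countable := fun h =>
  hI ((h.union hE).mono fun i hi => by by_cases h : i ∈ E <;> simp [h, hi])

theorem exists_ne_of_not_countable {ι : Type*} {I : Set ι} (hI : ¬ I.Countable) :
    ∃ i ∈ I, ∃ j ∈ I, i ≠ j := by
  by_contra hcon
  push Not at hcon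
  exact hI (Set.Subsingleton.finite hcon).countable

theorem exists_pairwise_disjoint {ι X : Type*} (S : ι → Set X) {I : Set ι} (hI : ¬ I.Countable)
    (hS : ∀ i, (S i).Countable) (hp : ∀ x, {i | i ∈ I ∧ x ∈ S i}.Countable) :
    ∃ I' ⊆ I, ¬ I'.Countable ∧ I'.Pairwise fun i j => Disjoint (S i) (S j) := by
  obtain ⟨T, hT⟩ := zorn_subset {T | T ⊆ I ∧ T.Pairwise fun i j => Disjoint (S i) (S j)} (by
    intro c hc hchain
    refine ⟨⋃₀ c, ⟨Set.sUnion_subset fun t ht => (hc ht).1, ?_⟩,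
      fun s hs => Set.subset_sUnion_of_mem hs⟩
    rintro p ⟨s, hs, hp⟩ q ⟨t, ht, hq⟩
    rcases hchain.total hs ht with h | h
    · exact (hc ht).2 (h hp) hq
    · exact (hc hs).2 hp (h hq))
  refine ⟨T, hT.prop.1, fun hc => ?_, hT.prop.2⟩
  have h1 : (T ∪ ⋃ j ∈ T, ⋃ x ∈ S j, {i | i ∈ I ∧ x ∈ S i}).Countable :=
    hc.union (hc.biUnion fun j _ => (hS j).biUnion fun x _ => hp x)
  obtain ⟨i, hi, hi'⟩ := nonempty_of_not_countable (not_countable_diff hI h1)
  simp only [Set.mem_union, Set.mem_iUnion, not_or, not_exists] at hi'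
  have h2 : ∀ j ∈ T, Disjoint (S i) (S j) := fun j hj =>
    Set.disjoint_left.2 fun x hx hx' => hi'.2 j hj x hx' ⟨hi, hx⟩
  have : insert i T ⊆ T := hT.le_of_ge ⟨Set.insert_subset hi hT.prop.1,
    (Set.pairwise_insert_of_symm).2 ⟨hT.prop.2, fun j hj _ => h2 j hj⟩⟩
    (Set.subset_insert _ _)
  exact hi'.1 (this (Set.mem_insert _ _))

theorem exists_root {ι X : Type*} [DecidableEq X] (S : ι → Finset X) {I : Set ι}
    (hI : ¬ I.Countable) : ∃ (D : Finset X) (l : ℕ), ∃ I' ⊆ I, ¬ I'.Countable ∧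
      (∀ i ∈ I', D ⊆ S i ∧ (S i \ D).card = l) ∧ ∀ x, {i | i ∈ I' ∧ x ∈ S i \ D}.Countable := by
  classical
  obtain ⟨n, hn⟩ := exists_fiber (fun i => (S i).card) hI
  let Q : ℕ → Prop := fun k => ∃ D : Finset X, D.card = k ∧
    ¬ {i | (i ∈ I ∧ (S i).card = n) ∧ D ⊆ S i}.Countable
  have h0 : Q 0 := ⟨∅, rfl, by simpa using hn⟩
  obtain ⟨D, hD, hD'⟩ := Nat.findGreatest_spec (P := Q) (Nat.zero_le n) h0
  refine ⟨D, n - D.card, _, fun i hi => hi.1.1, hD', fun i hi => ⟨hi.2, ?_⟩, fun x => ?_⟩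
  · rw [Finset.card_sdiff_of_subset hi.2, hi.1.2]
  · by_contra hx
    obtain ⟨i, hi⟩ := nonempty_of_not_countable hx
    have hxD : x ∉ D := (Finset.mem_sdiff.1 hi.2).2
    have h1 : Q (D.card + 1) := ⟨insert x D, Finset.card_insert_of_notMem hxD, fun h => hx
      (h.mono fun j hj =>
        And.intro hj.1.1 (Finset.insert_subset (Finset.mem_sdiff.1 hj.2).1 hj.1.2))⟩
    have h2 : D.card + 1 ≤ n := by
      rw [← Finset.card_insert_of_notMem hxD, ← hi.1.1.2]
      exact Finset.card_le_card (Finset.insert_subset (Finset.mem_sdiff.1 hi.2).1 hi.1.2)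
    have := Nat.le_findGreatest h2 h1
    omega

/-- the delta-system lemma -/
theorem exists_delta {ι X : Type*} [DecidableEq X] (S : ι → Finset X) {I : Set ι}
    (hI : ¬ I.Countable) : ∃ D : Finset X, ∃ I' ⊆ I, ¬ I'.Countable ∧
      (∀ i ∈ I', D ⊆ S i) ∧ ∀ i ∈ I', ∀ j ∈ I', i ≠ j → ∀ x ∈ S i, x ∈ S j → x ∈ D := by
  obtain ⟨D, l, I1, h1, h2, h3, h4⟩ := exists_root S hI
  obtain ⟨I2, g1, g2, g3⟩ := exists_pairwise_disjoint (fun i => ((S i \ D : Finset X) : Set X)) h2
    (fun i => Finset.countable_toSet _) h4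
  refine ⟨D, I2, g1.trans h1, g2, fun i hi => (h3 i (g1 hi)).1, fun i hi j hj hij x hx hx' => ?_⟩
  by_contra hD
  exact Set.disjoint_left.1 (g3 hi hj hij) (Finset.mem_coe.2 (Finset.mem_sdiff.2 ⟨hx, hD⟩))
    (Finset.mem_coe.2 (Finset.mem_sdiff.2 ⟨hx', hD⟩))

/-- finite functional sets of pairs (Cohen conditions) -/
structure FCond (X : Type*) where
  /-- the graph -/
  s : Set (X × Bool)
  fin : s.Finite
  fn : ∀ x b b', (x, b) ∈ s → (x, b') ∈ s → b = b'

namespace FCond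
variable {X : Type*}

instance : Preorder (FCond X) where
  le p q := q.s ⊆ p.s
  le_refl _ := subset_rfl
  le_trans _ _ _ h h' := h'.trans h

instance : OrderTop (FCond X) where
  top := ⟨∅, Set.finite_empty, fun _ _ _ h => h.elim⟩
  le_top _ := Set.empty_subset _

/-- compatibility -/
def Compat (p q : FCond X) : Prop := ∀ x b b', (x, b) ∈ p.s → (x, b') ∈ q.s → b = b'

/-- the union of two compatible conditions -/
def union (p q : FCond X) (h : Compat p q) : FCond X where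
  s := p.s ∪ q.s
  fin := p.fin.union q.fin
  fn := by
    rintro x b b' (h1 | h1) (h2 | h2)
    exacts [p.fn x b b' h1 h2, h x b b' h1 h2, (h x b' b h2 h1).symm, q.fn x b b' h1 h2]

theorem exists_decide (p : FCond X) (x : X) : ∃ q ≤ p, ∃ b, (x, b) ∈ q.s := by
  by_cases h : ∃ b, (x, b) ∈ p.s
  · exact ⟨p, le_rfl, h⟩
  · refine ⟨p.union ⟨{(x, false)}, Set.finite_singleton _, ?_⟩ ?_, Set.subset_union_left, false,
      Or.inr rfl⟩
    · rintro y b b' h1 h2
      exact (congrArg Prod.snd h1).trans (congrArg Prod.snd h2).symm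
    · rintro y b b' h1 h2
      obtain rfl : y = x := congrArg Prod.fst h2
      exact absurd ⟨b, h1⟩ h

end FCond

end Pool.Agent.Lib.PosetForcing
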