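import Pool.Agent.Lib.PosetForcing.Tools
import Pool.Agent.Lib.PosetForcing.CardDefs
import Pool.Agent.Lib.PosetForcing.Delta

set_option autoImplicit false

/-! Cardinal comparison in the quotient models, ccc forcing, nice names for reals. -/

namespace Pool.Agent.Lib.PosetForcing

universe u

variable {P : Type u} [Preorder P]

instance clopen_isSub (a b : Name P) :
    Clopen fun U : Gen P => IsSub Mod.mem (a.val U) (b.val U) := by
  unfold IsSub; infer_instance

instance clopen_isPow (a b : Name P) :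
    Clopen fun U : Gen P => IsPow Mod.mem (a.val U) (b.val U) := by
  unfold IsPow; infer_instance

instance clopen_isInj (j a b : Name P) :
    Clopen fun U : Gen P => IsInj Mod.mem (j.val U) (a.val U) (b.val U) := by
  unfold IsInj; infer_instance

instance clopen_leCard (a b : Name P) :
    Clopen fun U : Gen P => LeCard Mod.mem (a.val U) (b.val U) := by
  unfold LeCard; infer_instance

variable (P) in
/-- the countable chain condition, for families indexed by types of the universe of `P` -/
def CCC : Prop := ∀ (ι : Type u) (I : Set ι), ¬ I.Countable → ∀ p : ι → P,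
  ∃ i ∈ I, ∃ j ∈ I, i ≠ j ∧ ∃ r, r ≤ p i ∧ r ≤ p j

theorem CCC.exists_antichain (h : CCC P) (D : Set P) :
    ∃ S ⊆ D, S.Countable ∧ ∀ q ∈ D, ∃ p ∈ S, ∃ r, r ≤ p ∧ r ≤ q := by
  obtain ⟨S, h1, h2, h3⟩ := exists_max_antichain D
  refine ⟨S, h1, ?_, h3⟩
  by_contra hS
  obtain ⟨i, hi, j, hj, hne, r, r1, r2⟩ := h P S hS id
  exact hne (h2 i hi j hj r r1 r2)

/-- some condition below a member of an uncountable family forces uncountably many members of
the family into the generic filter -/
theorem CCC.exists_many (h : CCC P) {ι : Type u} {I : Set ι} (hI : ¬ I.Countable) (k : ι → P) :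
    ∃ i ∈ I, ∃ p ≤ k i, ∀ s ≤ p, ¬ {j | j ∈ I ∧ ∃ r, r ≤ s ∧ r ≤ k j}.Countable := by
  by_contra hcon
  push Not at hcon
  obtain ⟨S, h1, h2, h3⟩ := h.exists_antichain {s | {j | j ∈ I ∧ ∃ r, r ≤ s ∧ r ≤ k j}.Countable}
  obtain ⟨i, hi, hi'⟩ := nonempty_of_not_countable
    (not_countable_diff hI (h2.biUnion fun s hs => h1 hs))
  obtain ⟨s, hs, hs'⟩ := hcon i hi (k i) le_rfl
  obtain ⟨a, ha, r, r1, r2⟩ := h3 s hs'
  exact hi' (Set.mem_biUnion ha (And.intro hi ⟨r, r1, r2.trans hs⟩))

theorem exists_decide_lt (k : ℕ) (Φ : ℕ → Gen P → Prop) [∀ m, Clopen (Φ m)] (q : P) :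
    ∃ r ≤ q, ∃ b : ℕ → Bool, ∀ m < k, Forces r fun U => Φ m U ↔ b m = true := by
  induction k with
  | zero => exact ⟨q, le_rfl, fun _ => true, fun m hm => absurd hm (by omega)⟩
  | succ k ih =>
    obtain ⟨r, hr, b, hb⟩ := ih
    obtain ⟨s, hs, c, hc⟩ : ∃ s ≤ r, ∃ c : Bool, Forces s fun U => Φ k U ↔ c = true := by
      by_cases h : Forces r (Φ k)
      · exact ⟨r, le_rfl, true, h.imp fun U h => by simpa using h⟩
      · obtain ⟨s, hs, h1⟩ := exists_forces_not h
        exact ⟨s, hs, false, h1.imp fun U h => by simpa using h⟩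
    refine ⟨s, hs.trans hr, Function.update b k c, fun m hm => ?_⟩
    rcases Nat.lt_succ_iff_lt_or_eq.1 hm with hm | rfl
    · rw [Function.update_of_ne hm.ne]
      exact (hb m hm).mono hs
    · rwa [Function.update_self]

variable [OrderTop P]

theorem isPow_powName (a : Name P) (U : Gen P) : IsPow Mod.mem ((powName a).val U) (a.val U) :=
  mem_powName a U

/-- a set covered by a family of names injects into a set containing a matching family of
pairwise different names -/
theorem forces_leCard {ι : Type u} {p : P} {A B : Name P} (a e : ι → Name P)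
    (hA : ∀ x : Name P, ∀ q ≤ p, (Forces q fun U => Mod.mem (x.val U) (A.val U)) →
      ∃ r ≤ q, ∃ i, Forces r fun U => x.val U = (a i).val U)
    (hB : ∀ i, Forces p fun U => Mod.mem ((e i).val U) (B.val U))
    (he : ∀ i j, i ≠ j → ∀ q ≤ p, ¬ Forces q fun U => (e i).val U = (e j).val U) :
    Forces p fun U => LeCard Mod.mem (A.val U) (B.val U) := by
  let r : ι → ι → Prop := WellOrderingRel
  let T : Type u := {x : P × ι // (Forces x.1 fun U => Mod.mem ((a x.2).val U) (A.val U)) ∧
    ∀ k, r k x.2 → Forces x.1 fun U => (a x.2).val U ≠ (a k).val U}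
  let j : Name P := graphName (ι := T) (fun x => a x.1.2) (fun x => e x.1.2) fun x => x.1.1
  have h1 : Forces p fun U => IsFun Mod.mem (j.val U) (A.val U) (B.val U) := by
    refine forces_isFunOn_graph (V := fun U y => Mod.mem y (B.val U))
      (fun i q hq hi => ⟨q, le_rfl, (i.2.1.mono hi).and ((hB _).mono hq)⟩)
      (fun i q hq hi => ?_) fun x y q _ hx hy h => ⟨q, le_rfl, Forces.of_forall (fun _ => ?_) q⟩
    · obtain ⟨s, hs, k, hk⟩ := hA _ q hq (forces_el_mem i hi)
      obtain ⟨t, ht, l, hl, hmin⟩ := exists_least_index r IsWellFounded.wf a k s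
      have h2 := ((hk.mono ht).and hl).imp fun U h => h.1.trans h.2
      exact ⟨t, ht.trans hs, ⟨(t, l), (h2.and (forces_el_mem i (ht.trans (hs.trans hi)))).imp
        fun U h => h.1 ▸ h.2, hmin⟩, le_rfl, h2⟩
    · rcases trichotomous_of r x.1.2 y.1.2 with h1 | h1 | h1
      · exact (Forces.not_false ((h.and ((y.2.2 _ h1).mono hy)).imp fun _ h => h.2 h.1.symm)).elim
      · rw [h1]
      · exact (Forces.not_false ((h.and ((x.2.2 _ h1).mono hx)).imp fun _ h => h.2 h.1)).elim
  have h2 : Forces p fun U => ∀ x y, App Mod.mem (j.val U) x y → ∀ x' y',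
      App Mod.mem (j.val U) x' y' → y = y' → x = x' :=
    forces_forall_app_graph fun x q hq _ => ⟨q, le_rfl, forces_forall_app_graph
      fun y s hs _ => ⟨s, le_rfl, forces_imp fun t ht h => ⟨t, le_rfl, Forces.of_forall (fun _ => by
        by_cases e : x.1.2 = y.1.2
        · rw [e]
        · exact absurd h (he _ _ e t (ht.trans (hs.trans hq)))) t⟩⟩⟩
  exact (h1.and h2).imp fun U h => ⟨_, h.1, fun x x' y g g' => h.2 x y g x' y g' rfl⟩

theorem CCC.not_forces_inj (h : CCC P) {ι κ : Type u} [Nonempty κ] {I : Set ι}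
    (hI : ∀ f : ι → κ, ∃ y, ¬ {i | i ∈ I ∧ f i = y}.Countable) (a : ι → Name P) (b : κ → Name P)
    {j A : Name P} (c : ι → P)
    (hc : ∀ i ∈ I, Forces (c i) fun U => IsInj Mod.mem (j.val U) (A.val U) ((fam b).val U) ∧
      Mod.mem ((a i).val U) (A.val U))
    (hne : ∀ i ∈ I, ∀ i' ∈ I, i ≠ i' → ∀ r, r ≤ c i → r ≤ c i' →
      ¬ Forces r fun U => (a i).val U = (a i').val U) : False := by
  have h1 : ∀ i, ∃ x : P × κ, i ∈ I → x.1 ≤ c i ∧
      Forces x.1 fun U => App Mod.mem (j.val U) ((a i).val U) ((b x.2).val U) := by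
    intro i
    by_cases hi : i ∈ I
    · obtain ⟨y, hy⟩ := Forces.exists_name (Φ := fun U y => App Mod.mem (j.val U) ((a i).val U) y)
        ((hc i hi).imp fun U h => h.1.1.2.1 _ h.2)
      obtain ⟨q, hq, k, hk⟩ := Forces.exists_fam (((hc i hi).and hy).imp
        fun U h => ((isZFC U).app_val h.1.1.1 h.2).2)
      exact ⟨(q, k), fun _ => ⟨hq, ((hy.mono hq).and hk).imp fun U h => h.2 ▸ h.1⟩⟩
    · exact ⟨(⊤, Classical.arbitrary κ), fun h => absurd h hi⟩
  choose x hx using h1
  obtain ⟨y, hy⟩ := hI fun i => (x i).2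
  obtain ⟨i, hi, i', hi', hii, r, r1, r2⟩ := h ι _ hy fun i => (x i).1
  refine hne i hi.1 i' hi'.1 hii r (r1.trans (hx i hi.1).1) (r2.trans (hx i' hi'.1).1)
    fun U hU => ((hc i hi.1).mono (r1.trans (hx i hi.1).1) U hU).1.2 _ _ _
      ((hx i hi.1).2.mono r1 U hU) ?_
  rw [hi.2.trans hi'.2.symm]
  exact (hx i' hi'.1).2.mono r2 U hU

/-- the nice name for a subset of `ω` -/
def niceReal (S : Set (P × ULift.{u} ℕ)) : Name P :=
  .mk S (fun x => natName x.1.2.down) fun x => x.1.1

theorem CCC.exists_niceReal (h : CCC P) (x : Name P) : ∃ S : Set (P × ULift.{u} ℕ), S.Countable ∧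
    ∀ U, IsSub Mod.mem (x.val U) (omegaName.val U) → x.val U = (niceReal S).val U := by
  choose S h1 h2 h3 using fun n : ULift.{u} ℕ => h.exists_antichain
    {p | Forces p fun U => Mod.mem ((natName n.down).val U) (x.val U)}
  refine ⟨⋃ n, (fun p => (p, n)) '' S n, Set.countable_iUnion fun n => (h2 n).image _,
    fun U hx => Mod.ext _ _ fun z => ⟨fun hz => ?_, ?_⟩⟩
  · refine forall_mem_omega (Φ := fun U z => Mod.mem z (x.val U) →
      Mod.mem z ((niceReal (⋃ n, (fun p => (p, n)) '' S n)).val U)) (fun n => ?_) U z (hx z hz) hz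
    refine of_forces_all fun p => ⟨p, le_rfl, forces_imp fun q _ hq => ?_⟩
    obtain ⟨a, ha, r, r1, r2⟩ := h3 ⟨n⟩ q hq
    exact ⟨r, r2, forces_el_mem (b := niceReal (⋃ n, (fun p => (p, n)) '' S n))
      ⟨(a, ⟨n⟩), Set.mem_iUnion.2 ⟨⟨n⟩, a, ha, rfl⟩⟩ r1⟩
  · refine forall_mem (b := niceReal (⋃ n, (fun p => (p, n)) '' S n))
      (Φ := fun U z => Mod.mem z (x.val U)) (fun i q hq => ⟨q, le_rfl, ?_⟩) U z
    obtain ⟨_, hi⟩ := i
    obtain ⟨n, a, ha, rfl⟩ := Set.mem_iUnion.1 hi
    exact Forces.mono (h1 n ha) hq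

section ordinals
variable {W : Type u} [LinearOrder W] [WellFoundedLT W]

/-- names for the ordinals given by a well-ordered type -/
noncomputable def ordName (x : W) : Name P := wfName (wellFounded_lt (α := W)) x

theorem ordName_eq (x : W) : (ordName x : Name P) = fam fun y : {y // y < x} => ordName y.1 :=
  wfName_eq _ x

theorem ordName_mem {x y : W} (h : y < x) (U : Gen P) :
    Mod.mem ((ordName y).val U) ((ordName x).val U) := wfName_mem _ h U

theorem ordName_inj {x y : W} {U : Gen P} (h : (ordName x).val U = (ordName y).val U) : x = y := by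
  rcases lt_trichotomy x y with h1 | h1 | h1
  · exact absurd (h ▸ ordName_mem h1 U) (Mod.not_mem_self _)
  · exact h1
  · exact absurd (h ▸ ordName_mem h1 U) (Mod.not_mem_self _)

theorem Forces.ordName_inj {x y : W} {p : P}
    (h : Forces p fun U => (ordName x).val U = (ordName y).val U) : x = y := by
  obtain ⟨U, hU⟩ := h.exists
  exact PosetForcing.ordName_inj hU

theorem forall_mem_ordName {x : W} {Φ : ∀ U : Gen P, Mod U → Prop}
    [∀ a : Name P, Clopen fun U => Φ U (a.val U)] (h : ∀ y < x, ∀ U, Φ U ((ordName y).val U))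
    (U : Gen P) : ∀ z, Mod.mem z ((ordName x).val U) → Φ U z := by
  rw [ordName_eq x]
  exact forall_mem_fam (fun i U => h _ i.2 U) U

variable (W) in
/-- the name of the order type of `W` -/
noncomputable def typeName : Name P := fam fun x : W => ordName x

theorem ordName_mem_typeName (x : W) (U : Gen P) :
    Mod.mem ((ordName x).val U) ((typeName W).val U) := mem_fam (fun x : W => ordName x) x U

theorem CCC.isOmega1 (h : CCC P) [Uncountable W] (hW : ∀ x : W, (Set.Iio x).Countable)
    (U : Gen P) : IsOmega1 Mod.mem ((typeName W).val U) (omegaName.val U) := by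
  refine ⟨forall_mem_fam (Φ := fun U x => IsSub Mod.mem x ((typeName W).val U))
      (fun x U => forall_mem_ordName (Φ := fun U z => Mod.mem z ((typeName W).val U))
        (fun y _ U => ordName_mem_typeName y U) U) U, fun x y hx => ?_, ?_,
    forall_mem_fam (Φ := fun U x => LeCard Mod.mem x (omegaName.val U)) (fun x => ?_) U⟩
  · revert y
    exact forall_mem_fam (Φ := fun U x => ∀ y, Mod.mem y x → IsSub Mod.mem y x)
      (fun x U => forall_mem_ordName (Φ := fun U y => IsSub Mod.mem y ((ordName x).val U))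
        (fun y hy U => forall_mem_ordName (Φ := fun U z => Mod.mem z ((ordName x).val U))
          (fun z hz U => ordName_mem (hz.trans hy) U) U) U) U x hx
  · rintro ⟨j, hj⟩
    obtain ⟨j, rfl⟩ := j.exists_name
    obtain ⟨p, hp⟩ := Ultrafilter.nonempty_of_mem (truth (Φ := (fun U : Gen P =>
      IsInj Mod.mem (j.val U) ((typeName W).val U) (omegaName.val U) :)) hj)
    exact h.not_forces_inj (I := Set.univ) (fun f => exists_fiber f Set.not_countable_univ)
      (fun x : W => ordName x) (fun n : ULift.{u} ℕ => natName n.down) (fun _ => p)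
      (fun x _ => Forces.imp hp fun U h => ⟨h, ordName_mem_typeName x U⟩)
      fun x _ y _ hne r _ _ h => hne h.ordName_inj
  · obtain ⟨f, hf⟩ := (hW x).exists_injective_nat
    refine of_forces_all fun p => ⟨p, le_rfl, forces_leCard (ι := {y // y < x})
      (fun y => ordName y.1) (fun y => natName (f y)) (fun z q _ hz => ?_)
      (fun y => Forces.of_forall (natName_mem_omega _) p)
      fun y z hne q _ h => hne (hf h.natName_inj)⟩
    rw [ordName_eq x] at hz
    exact hz.exists_fam

end ordinals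

end Pool.Agent.Lib.PosetForcing
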