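import Pool.Agent.Lib.PosetForcing.ZFC

set_option autoImplicit false

/-! Names over a preorder, the forcing relation for atomic formulas, the quotient models. -/

namespace Pool.Agent.Lib.PosetForcing

universe u

/-- `P`-names -/
inductive Name (P : Type u) : Type (u + 1)
  | mk (ι : Type u) (A : ι → Name P) (c : ι → P) : Name P

variable {P : Type u}

namespace Name

/-- index type of a name -/
def idx : Name P → Type u
  | mk ι _ _ => ι

/-- potential elements of a name -/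
def el : (a : Name P) → a.idx → Name P
  | mk _ A _ => A

/-- conditions of a name -/
def cond : (a : Name P) → a.idx → P
  | mk _ _ c => c

theorem eta (a : Name P) : mk a.idx a.el a.cond = a := by cases a; rfl

end Name

variable [Preorder P]

/-- `R` holds densely below `p` -/
def Dn (R : P → Prop) (p : P) : Prop := ∀ q ≤ p, ∃ r ≤ q, R r

theorem Dn.mono {R : P → Prop} {p q : P} (h : Dn R p) (hq : q ≤ p) : Dn R q :=
  fun r hr => h r (hr.trans hq)

theorem Dn.dn {R : P → Prop} {p : P} (h : Dn (Dn R) p) : Dn R p := fun q hq => by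
  obtain ⟨r, hr, h1⟩ := h q hq
  obtain ⟨s, hs, h2⟩ := h1 r le_rfl
  exact ⟨s, hs.trans hr, h2⟩

/-- forced equality -/
def FEq : Name P → Name P → P → Prop
  | .mk _ A c, .mk _ B d, p =>
    (∀ i, ∀ q ≤ p, q ≤ c i → ∃ r ≤ q, ∃ j, r ≤ d j ∧ FEq (A i) (B j) r) ∧
    (∀ j, ∀ q ≤ p, q ≤ d j → ∃ r ≤ q, ∃ i, r ≤ c i ∧ FEq (A i) (B j) r)

/-- forced membership -/
def FMem (a b : Name P) : P → Prop := Dn fun r => ∃ j, r ≤ b.cond j ∧ FEq a (b.el j) r

theorem fEq_iff (a b : Name P) (p : P) : FEq a b p ↔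
    (∀ i, ∀ q ≤ p, q ≤ a.cond i → ∃ r ≤ q, ∃ j, r ≤ b.cond j ∧ FEq (a.el i) (b.el j) r) ∧
    (∀ j, ∀ q ≤ p, q ≤ b.cond j → ∃ r ≤ q, ∃ i, r ≤ a.cond i ∧ FEq (a.el i) (b.el j) r) := by
  cases a; cases b; rfl

theorem FEq.mono {a b : Name P} {p q : P} (h : FEq a b p) (hq : q ≤ p) : FEq a b q := by
  rw [fEq_iff] at h ⊢
  exact ⟨fun i r hr => h.1 i r (hr.trans hq), fun i r hr => h.2 i r (hr.trans hq)⟩

theorem FEq.of_dn {a b : Name P} {p : P} (h : Dn (FEq a b) p) : FEq a b p := by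
  rw [fEq_iff]
  constructor
  · intro i q hq hc
    obtain ⟨r, hr, h1⟩ := h q hq
    obtain ⟨s, hs, h2⟩ := ((fEq_iff _ _ _).1 h1).1 i r le_rfl (hr.trans hc)
    exact ⟨s, hs.trans hr, h2⟩
  · intro i q hq hc
    obtain ⟨r, hr, h1⟩ := h q hq
    obtain ⟨s, hs, h2⟩ := ((fEq_iff _ _ _).1 h1).2 i r le_rfl (hr.trans hc)
    exact ⟨s, hs.trans hr, h2⟩

theorem FEq.refl (a : Name P) (p : P) : FEq a a p := by
  induction a generalizing p with
  | mk ι A c ih =>
    exact ⟨fun i q _ hc => ⟨q, le_rfl, i, hc, ih i q⟩, fun i q _ hc => ⟨q, le_rfl, i, hc, ih i q⟩⟩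

theorem FEq.symm {a b : Name P} {p : P} (h : FEq a b p) : FEq b a p := by
  induction a generalizing b p with
  | mk ι A c ih =>
    cases b with
    | mk κ B d =>
      refine ⟨fun j q hq hc => ?_, fun i q hq hc => ?_⟩
      · obtain ⟨r, hr, i, h1, h2⟩ := h.2 j q hq hc
        exact ⟨r, hr, i, h1, ih i h2⟩
      · obtain ⟨r, hr, j, h1, h2⟩ := h.1 i q hq hc
        exact ⟨r, hr, j, h1, ih i h2⟩

theorem FEq.trans {a b c : Name P} {p : P} (h : FEq a b p) (h' : FEq b c p) : FEq a c p := by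
  induction a generalizing b c p with
  | mk ι A ca ih =>
    cases b with
    | mk κ B cb =>
      cases c with
      | mk μ C cc =>
        refine ⟨fun i q hq hc => ?_, fun k q hq hc => ?_⟩
        · obtain ⟨r, hr, j, h1, h2⟩ := h.1 i q hq hc
          obtain ⟨s, hs, k, h3, h4⟩ := h'.1 j r (hr.trans hq) h1
          exact ⟨s, hs.trans hr, k, h3, ih i (h2.mono hs) h4⟩
        · obtain ⟨r, hr, j, h1, h2⟩ := h'.2 k q hq hc
          obtain ⟨s, hs, i, h3, h4⟩ := h.2 j r (hr.trans hq) h1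
          exact ⟨s, hs.trans hr, i, h3, ih i h4 (h2.mono hs)⟩

theorem FMem.congr_left {a a' b : Name P} {p : P} (h : FMem a b p) (h' : FEq a a' p) :
    FMem a' b p := fun q hq => by
  obtain ⟨r, hr, j, h1, h2⟩ := h q hq
  exact ⟨r, hr, j, h1, (h'.mono (hr.trans hq)).symm.trans h2⟩

theorem FMem.congr_right {a b b' : Name P} {p : P} (h : FMem a b p) (h' : FEq b b' p) :
    FMem a b' p := fun q hq => by
  obtain ⟨r, hr, j, h1, h2⟩ := h q hq
  obtain ⟨s, hs, k, h3, h4⟩ := ((fEq_iff _ _ _).1 h').1 j r (hr.trans hq) h1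
  exact ⟨s, hs.trans hr, k, h3, (h2.mono hs).trans h4⟩

variable (P) in
/-- ultrafilters on the type `P` that contain every dense open set -/
structure Gen : Type u where
  /-- the ultrafilter -/
  ult : Ultrafilter P
  dense_mem : ∀ D : Set P, IsLowerSet D → (∀ p, ∃ q ≤ p, q ∈ D) → D ∈ ult

theorem exists_gen (p : P) : ∃ U : Gen P, Set.Iic p ∈ U.1 := by
  let F : Filter P :=
    { sets := {S | ∃ D : Set P, IsLowerSet D ∧ (∀ q, ∃ r ≤ q, r ∈ D) ∧ D ∩ Set.Iic p ⊆ S}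
      univ_sets := ⟨Set.univ, isLowerSet_univ, fun q => ⟨q, le_rfl, trivial⟩, Set.subset_univ _⟩
      sets_of_superset := fun ⟨D, h1, h2, h3⟩ h => ⟨D, h1, h2, h3.trans h⟩
      inter_sets := by
        rintro x y ⟨D, h1, h2, h3⟩ ⟨E, g1, g2, g3⟩
        refine ⟨D ∩ E, h1.inter g1, fun q => ?_, fun z hz => ⟨h3 ⟨hz.1.1, hz.2⟩, g3 ⟨hz.1.2, hz.2⟩⟩⟩
        obtain ⟨r, hr, hrD⟩ := h2 q
        obtain ⟨s, hs, hsE⟩ := g2 r
        exact ⟨s, hs.trans hr, h1 hs hrD, hsE⟩ }
  have : F.NeBot := by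
    refine Filter.forall_mem_nonempty_iff_neBot.1 ?_
    rintro S ⟨D, -, h2, h3⟩
    obtain ⟨r, hr, hrD⟩ := h2 p
    exact ⟨r, h3 ⟨hrD, hr⟩⟩
  refine ⟨⟨Ultrafilter.of F, fun D h1 h2 => Ultrafilter.of_le F ⟨D, h1, h2, Set.inter_subset_left⟩⟩,
    Ultrafilter.of_le F ⟨Set.univ, isLowerSet_univ, fun q => ⟨q, le_rfl, trivial⟩,
      Set.inter_subset_right⟩⟩

/-- a set that is open and dense below `p` belongs to every `U` containing the cone of `p` -/
theorem Gen.mem_of_dn (U : Gen P) {R : P → Prop} (hR : ∀ p q, q ≤ p → R p → R q) {S : Set P}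
    (hS : S ∈ U.1) (h : ∀ p ∈ S, Dn R p) : {q | R q} ∈ U.1 := by
  have h1 : {q | R q ∨ ∀ r ≤ q, ¬ R r} ∈ U.1 := by
    apply U.2
    · rintro a b hab (h | h)
      · exact Or.inl (hR _ _ hab h)
      · exact Or.inr fun r hr => h r (hr.trans hab)
    · intro q
      by_cases hq : ∃ r ≤ q, R r
      · obtain ⟨r, hr, h⟩ := hq
        exact ⟨r, hr, Or.inl h⟩
      · exact ⟨q, le_rfl, Or.inr fun r hr h => hq ⟨r, hr, h⟩⟩
  filter_upwards [h1, hS] with q hq hq'
  rcases hq with hq | hq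
  · exact hq
  · obtain ⟨r, hr, h2⟩ := h q hq' q le_rfl
    exact absurd h2 (hq r hr)

/-- the setoid of names equal modulo `U` -/
def Gen.setoid (U : Gen P) : Setoid (Name P) where
  r a b := {p | FEq a b p} ∈ U.1
  iseqv :=
    { refl := fun a => Filter.univ_mem' fun p => FEq.refl a p
      symm := fun h => Filter.mem_of_superset h fun _ h => FEq.symm h
      trans := fun h h' => Filter.mem_of_superset (Filter.inter_mem h h')
        fun _ h => FEq.trans h.1 h.2 }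

/-- the model obtained from `U` -/
def Mod (U : Gen P) : Type (u + 1) := Quotient U.setoid

/-- the value of a name in the model -/
def Name.val (a : Name P) (U : Gen P) : Mod U := Quotient.mk U.setoid a

theorem Mod.exists_name {U : Gen P} (x : Mod U) : ∃ a : Name P, a.val U = x :=
  Quotient.exists_rep x

/-- membership in the model -/
def Mod.mem {U : Gen P} : Mod U → Mod U → Prop :=
  Quotient.lift₂ (fun a b => {p | FMem a b p} ∈ U.1) (by
    intro a b a' b' ha hb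
    apply propext
    constructor
    · intro h
      filter_upwards [h, ha, hb] with p h1 h2 h3
      exact (FMem.congr_left h1 h2).congr_right h3
    · intro h
      filter_upwards [h, ha, hb] with p h1 h2 h3
      exact (FMem.congr_left h1 h2.symm).congr_right h3.symm)

theorem val_eq_iff {U : Gen P} {a b : Name P} : a.val U = b.val U ↔ {p | FEq a b p} ∈ U.1 :=
  Quotient.eq (r := U.setoid)

theorem val_mem_iff {U : Gen P} {a b : Name P} :
    Mod.mem (a.val U) (b.val U) ↔ {p | FMem a b p} ∈ U.1 := Iff.rfl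

/-- semantic forcing -/
def Forces (p : P) (Φ : Gen P → Prop) : Prop := ∀ U : Gen P, Set.Iic p ∈ U.1 → Φ U

theorem Forces.mono {p q : P} {Φ : Gen P → Prop} (h : Forces p Φ) (hq : q ≤ p) : Forces q Φ :=
  fun U hU => h U (Filter.mem_of_superset hU (Set.Iic_subset_Iic.2 hq))

theorem Forces.imp {p : P} {Φ Ψ : Gen P → Prop} (h : Forces p Φ) (h' : ∀ U, Φ U → Ψ U) :
    Forces p Ψ := fun U hU => h' U (h U hU)

theorem Forces.and {p : P} {Φ Ψ : Gen P → Prop} (h : Forces p Φ) (h' : Forces p Ψ) :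
    Forces p fun U => Φ U ∧ Ψ U := fun U hU => ⟨h U hU, h' U hU⟩

theorem Forces.of_forall {Φ : Gen P → Prop} (h : ∀ U, Φ U) (p : P) : Forces p Φ :=
  fun U _ => h U

theorem Forces.exists {p : P} {Φ : Gen P → Prop} (h : Forces p Φ) : ∃ U, Φ U := by
  obtain ⟨U, hU⟩ := exists_gen p
  exact ⟨U, h U hU⟩

theorem Forces.not_false {p : P} (h : Forces p fun _ => False) : False := by
  obtain ⟨_, h⟩ := h.exists
  exact h

theorem forces_mem_iff {R : P → Prop} (hR : ∀ p q, q ≤ p → R p → R q) (p : P) :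
    (Forces p fun U => {q | R q} ∈ U.1) ↔ Dn R p := by
  constructor
  · intro h q hq
    obtain ⟨U, hU⟩ := exists_gen q
    obtain ⟨r, hr, hr'⟩ := Ultrafilter.nonempty_of_mem (Filter.inter_mem hU (h.mono hq U hU))
    exact ⟨r, hr, hr'⟩
  · intro h U hU
    exact U.mem_of_dn hR hU fun q hq => h.mono hq

theorem forces_eq_iff {a b : Name P} {p : P} :
    (Forces p fun U => a.val U = b.val U) ↔ FEq a b p := by
  simp only [val_eq_iff]
  rw [forces_mem_iff fun p q hq h => FEq.mono h hq]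
  exact ⟨FEq.of_dn, fun h q hq => ⟨q, le_rfl, h.mono hq⟩⟩

theorem forces_mem_iff' {a b : Name P} {p : P} :
    (Forces p fun U => Mod.mem (a.val U) (b.val U)) ↔ FMem a b p := by
  simp only [val_mem_iff]
  rw [forces_mem_iff (R := FMem a b) fun p q hq h => Dn.mono h hq]
  exact ⟨Dn.dn, fun h q hq => ⟨q, le_rfl, h.mono hq⟩⟩

/-- the truth lemma holds for `Φ` -/
class Clopen (Φ : Gen P → Prop) : Prop where
  out : ∀ U, Φ U ↔ {p | Forces p Φ} ∈ U.1

theorem Clopen.of_iff {Φ : Gen P → Prop} {R : P → Prop} (hR : ∀ p q, q ≤ p → R p → R q)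
    (h : ∀ U, Φ U ↔ {q | R q} ∈ U.1) : Clopen Φ := ⟨fun U => by
  have e : Φ = fun U => {q | R q} ∈ U.1 := funext fun U => propext (h U)
  subst e
  simp only [forces_mem_iff hR]
  exact ⟨fun h => Filter.mem_of_superset h fun q hq r hr => ⟨r, le_rfl, hR _ _ hr hq⟩,
    fun h => U.mem_of_dn hR h fun _ h => h⟩⟩

theorem Clopen.congr {Φ Ψ : Gen P → Prop} [h : Clopen Φ] (e : ∀ U, Ψ U ↔ Φ U) : Clopen Ψ := by
  have : Ψ = Φ := funext fun U => propext (e U)
  rwa [this]

/-- truth lemma -/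
theorem truth {Φ : Gen P → Prop} [Clopen Φ] {U : Gen P} (h : Φ U) : {p | Forces p Φ} ∈ U.1 :=
  (Clopen.out U).1 h

theorem of_truth {Φ : Gen P → Prop} [Clopen Φ] {U : Gen P} (h : {p | Forces p Φ} ∈ U.1) : Φ U :=
  (Clopen.out U).2 h

/-- density principle -/
theorem Forces.of_dn {Φ : Gen P → Prop} [Clopen Φ] {p : P} (h : ∀ q ≤ p, ∃ r ≤ q, Forces r Φ) :
    Forces p Φ := fun U hU =>
  of_truth (U.mem_of_dn (R := fun q => Forces q Φ) (fun _ _ hq h => h.mono hq) hU
    fun _ hq => Dn.mono h hq)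

theorem exists_forces_of {Φ : Gen P → Prop} [Clopen Φ] {p : P} {U : Gen P}
    (hU : Set.Iic p ∈ U.1) (h : Φ U) : ∃ q ≤ p, Forces q Φ := by
  obtain ⟨r, hr, hr'⟩ := Ultrafilter.nonempty_of_mem (Filter.inter_mem hU (truth h))
  exact ⟨r, hr, hr'⟩

instance clopen_eq (a b : Name P) : Clopen fun U : Gen P => a.val U = b.val U :=
  .of_iff (fun _ _ hq h => FEq.mono h hq) fun _ => val_eq_iff

instance clopen_mem (a b : Name P) : Clopen fun U : Gen P => Mod.mem (a.val U) (b.val U) :=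
  .of_iff (fun _ _ hq h => Dn.mono h hq) fun _ => val_mem_iff

instance clopen_const (A : Prop) : Clopen fun _ : Gen P => A :=
  .of_iff (R := fun _ => A) (fun _ _ _ h => h) fun U => by
    by_cases h : A
    · exact ⟨fun _ => Filter.univ_mem' fun _ => h, fun _ => h⟩
    · simp [h]

instance clopen_and (Φ Ψ : Gen P → Prop) [Clopen Φ] [Clopen Ψ] : Clopen fun U => Φ U ∧ Ψ U :=
  .of_iff (R := fun p => Forces p Φ ∧ Forces p Ψ) (fun _ _ hq h => ⟨h.1.mono hq, h.2.mono hq⟩)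
    fun U => by
      rw [Clopen.out (Φ := Φ) U, Clopen.out (Φ := Ψ) U]
      exact (Filter.inter_mem_iff (f := (U.1 : Filter P))).symm

instance clopen_not (Φ : Gen P → Prop) [Clopen Φ] : Clopen fun U => ¬ Φ U :=
  .of_iff (R := fun p => ∀ q ≤ p, ¬ Forces q Φ) (fun _ _ hq h r hr => h r (hr.trans hq))
    fun U => by
      constructor
      · intro h
        have h1 : {q | Forces q Φ ∨ ∀ r ≤ q, ¬ Forces r Φ} ∈ U.1 := by
          apply U.2
          · rintro a b hab (h | h)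
            · exact Or.inl (h.mono hab)
            · exact Or.inr fun r hr => h r (hr.trans hab)
          · intro q
            by_cases hq : ∃ r ≤ q, Forces r Φ
            · obtain ⟨r, hr, h⟩ := hq
              exact ⟨r, hr, Or.inl h⟩
            · exact ⟨q, le_rfl, Or.inr fun r hr h => hq ⟨r, hr, h⟩⟩
        exact (Ultrafilter.union_mem_iff.1 h1).resolve_left fun h2 => h (of_truth h2)
      · intro h h'
        obtain ⟨r, hr, hr'⟩ := Ultrafilter.nonempty_of_mem (Filter.inter_mem h (truth h'))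
        exact hr r le_rfl hr'

instance clopen_or (Φ Ψ : Gen P → Prop) [Clopen Φ] [Clopen Ψ] : Clopen fun U => Φ U ∨ Ψ U :=
  Clopen.congr (Φ := fun U => ¬ (¬ Φ U ∧ ¬ Ψ U)) fun _ => by tauto

instance clopen_imp (Φ Ψ : Gen P → Prop) [Clopen Φ] [Clopen Ψ] : Clopen fun U => Φ U → Ψ U :=
  Clopen.congr (Φ := fun U => ¬ (Φ U ∧ ¬ Ψ U)) fun _ => by tauto

instance clopen_iff (Φ Ψ : Gen P → Prop) [Clopen Φ] [Clopen Ψ] : Clopen fun U => Φ U ↔ Ψ U :=
  Clopen.congr (Φ := fun U => (Φ U → Ψ U) ∧ (Ψ U → Φ U)) fun _ => iff_def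

instance clopen_ne (a b : Name P) : Clopen fun U : Gen P => a.val U ≠ b.val U :=
  clopen_not _

/-- if `p` does not force `Φ`, some extension forces its negation -/
theorem exists_forces_not {Φ : Gen P → Prop} [Clopen Φ] {p : P} (h : ¬ Forces p Φ) :
    ∃ q ≤ p, Forces q fun U => ¬ Φ U := by
  simp only [Forces, not_forall] at h
  obtain ⟨U, hU, h⟩ := h
  exact exists_forces_of (Φ := fun U => ¬ Φ U) hU h

theorem forces_not_iff {Φ : Gen P → Prop} [Clopen Φ] {p : P} :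
    (Forces p fun U => ¬ Φ U) ↔ ∀ q ≤ p, ¬ Forces q Φ := by
  constructor
  · intro h q hq h'
    exact Forces.not_false (((h.mono hq).and h').imp fun _ h => h.1 h.2)
  · intro h U hU h'
    obtain ⟨q, hq, h2⟩ := exists_forces_of hU h'
    exact h q hq h2

theorem forces_imp {Φ Ψ : Gen P → Prop} [Clopen Φ] [Clopen Ψ] {p : P}
    (h : ∀ q ≤ p, Forces q Φ → ∃ r ≤ q, Forces r Ψ) : Forces p fun U => Φ U → Ψ U := by
  intro U hU h1
  by_contra h2
  obtain ⟨q, hq, h3⟩ := exists_forces_of (Φ := fun U => Φ U ∧ ¬ Ψ U) hU ⟨h1, h2⟩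
  obtain ⟨r, hr, h4⟩ := h q hq (h3.imp fun _ h => h.1)
  exact Forces.not_false (((h3.mono hr).and h4).imp fun _ h => h.1.2 h.2)

/-- mixing names along an antichain -/
def mix (S : Set P) (b : P → Name P) : Name P :=
  .mk (Σ p : S, Σ i : (b p).idx, {q : P // q ≤ p.1 ∧ q ≤ (b p).cond i})
    (fun x => (b x.1).el x.2.1) (fun x => x.2.2.1)

theorem mix_eq {S : Set P} (hS : ∀ p ∈ S, ∀ q ∈ S, ∀ r, r ≤ p → r ≤ q → p = q) (b : P → Name P)
    {p : P} (hp : p ∈ S) : FEq (mix S b) (b p) p := by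
  rw [fEq_iff]
  constructor
  · rintro ⟨⟨p', hp'⟩, i, q', h1, h2⟩ q hq hc
    obtain rfl : p = p' := hS p hp p' hp' q hq (le_trans hc h1)
    exact ⟨q, le_rfl, i, le_trans hc h2, FEq.refl _ _⟩
  · intro i q hq hc
    exact ⟨q, le_rfl, ⟨⟨p, hp⟩, i, q, hq, hc⟩, le_rfl, FEq.refl _ _⟩

theorem exists_max_antichain (D : Set P) :
    ∃ S ⊆ D, (∀ p ∈ S, ∀ q ∈ S, ∀ r, r ≤ p → r ≤ q → p = q) ∧
      ∀ q ∈ D, ∃ p ∈ S, ∃ r, r ≤ p ∧ r ≤ q := by
  obtain ⟨S, hS⟩ := zorn_subset {S | S ⊆ D ∧ ∀ p ∈ S, ∀ q ∈ S, ∀ r, r ≤ p → r ≤ q → p = q} (by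
    intro c hc hchain
    refine ⟨⋃₀ c, ⟨Set.sUnion_subset fun t ht => (hc ht).1, ?_⟩, fun s hs => Set.subset_sUnion_of_mem hs⟩
    rintro p ⟨s, hs, hp⟩ q ⟨t, ht, hq⟩
    rcases hchain.total hs ht with h | h
    · exact (hc ht).2 p (h hp) q hq
    · exact (hc hs).2 p hp q (h hq))
  refine ⟨S, hS.prop.1, hS.prop.2, fun q hq => ?_⟩
  by_contra hcon
  push Not at hcon
  have : insert q S ⊆ S := hS.le_of_ge ⟨Set.insert_subset hq hS.prop.1, by
    rintro a (rfl | ha) b (rfl | hb) r h1 h2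
    · rfl
    · exact absurd h1 (hcon b hb r h2)
    · exact absurd h2 (hcon a ha r h1)
    · exact hS.prop.2 a ha b hb r h1 h2⟩ (Set.subset_insert _ _)
  exact hcon q (this (Set.mem_insert _ _)) q le_rfl le_rfl

/-- maximum principle -/
theorem max_principle (Φ : ∀ U : Gen P, Mod U → Prop)
    [∀ a : Name P, Clopen fun U => Φ U (a.val U)] :
    ∃ a : Name P, ∀ U, (∃ x, Φ U x) → Φ U (a.val U) := by
  classical
  obtain ⟨S, hSD, hS, hmax⟩ := exists_max_antichain
    {p | ∃ b : Name P, Forces p fun U => Φ U (b.val U)}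
  have : ∀ p : P, ∃ b : Name P, p ∈ S → Forces p fun U => Φ U (b.val U) := by
    intro p
    by_cases hp : p ∈ S
    · obtain ⟨b, hb⟩ := hSD hp
      exact ⟨b, fun _ => hb⟩
    · exact ⟨.mk PEmpty PEmpty.elim PEmpty.elim, fun h => absurd h hp⟩
  choose b hb using this
  refine ⟨mix S b, ?_⟩
  rintro U ⟨x, hx⟩
  obtain ⟨c, rfl⟩ := x.exists_name
  refine of_truth (Φ := fun U => Φ U ((mix S b).val U))
    (Filter.mem_of_superset (truth (Φ := fun U => Φ U (c.val U)) hx) fun p hp => ?_)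
  refine Forces.of_dn fun q hq => ?_
  obtain ⟨p', hp', r, h1, h2⟩ := hmax q ⟨c, Forces.mono hp hq⟩
  refine ⟨r, h2, (((hb p' hp').and (forces_eq_iff.2 (mix_eq hS b hp'))).mono h1).imp ?_⟩
  rintro U ⟨h3, h4⟩
  rwa [h4]

instance clopen_exists (Φ : ∀ U : Gen P, Mod U → Prop)
    [∀ a : Name P, Clopen fun U => Φ U (a.val U)] : Clopen fun U => ∃ x, Φ U x := by
  obtain ⟨a, ha⟩ := max_principle Φ
  exact Clopen.congr (Φ := fun U => Φ U (a.val U)) fun U => ⟨ha U, fun h => ⟨_, h⟩⟩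

instance clopen_forall (Φ : ∀ U : Gen P, Mod U → Prop)
    [∀ a : Name P, Clopen fun U => Φ U (a.val U)] : Clopen fun U => ∀ x, Φ U x :=
  Clopen.congr (Φ := fun U => ¬ ∃ x, ¬ Φ U x) fun _ => by simp

instance clopen_existsUnique (Φ : ∀ U : Gen P, Mod U → Prop)
    [∀ a : Name P, Clopen fun U => Φ U (a.val U)] : Clopen fun U => ∃! x, Φ U x := by
  unfold ExistsUnique
  infer_instance

theorem Forces.exists_name {Φ : ∀ U : Gen P, Mod U → Prop}
    [∀ a : Name P, Clopen fun U => Φ U (a.val U)] {p : P} (h : Forces p fun U => ∃ x, Φ U x) :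
    ∃ a : Name P, Forces p fun U => Φ U (a.val U) := by
  obtain ⟨a, ha⟩ := max_principle Φ
  exact ⟨a, h.imp ha⟩

theorem forces_forall {Φ : ∀ U : Gen P, Mod U → Prop} {p : P}
    (h : ∀ a : Name P, Forces p fun U => Φ U (a.val U)) : Forces p fun U => ∀ x, Φ U x := by
  intro U hU x
  obtain ⟨a, rfl⟩ := x.exists_name
  exact h a U hU

theorem forces_el_mem {b : Name P} {p : P} (i : b.idx) (h : p ≤ b.cond i) :
    Forces p fun U => Mod.mem ((b.el i).val U) (b.val U) :=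
  forces_mem_iff'.2 fun q hq => ⟨q, le_rfl, i, hq.trans h, FEq.refl _ _⟩

theorem Forces.exists_el {a b : Name P} {p : P}
    (h : Forces p fun U => Mod.mem (a.val U) (b.val U)) :
    ∃ q ≤ p, ∃ i, q ≤ b.cond i ∧ Forces q fun U => a.val U = (b.el i).val U := by
  obtain ⟨q, hq, i, h1, h2⟩ := forces_mem_iff'.1 h p le_rfl
  exact ⟨q, hq, i, h1, forces_eq_iff.2 h2⟩

/-- bounded quantification over a name -/
theorem forces_forall_mem {Φ : ∀ U : Gen P, Mod U → Prop}
    [∀ a : Name P, Clopen fun U => Φ U (a.val U)] {b : Name P} {p : P}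
    (h : ∀ i, ∀ q ≤ p, q ≤ b.cond i → ∃ r ≤ q, Forces r fun U => Φ U ((b.el i).val U)) :
    Forces p fun U => ∀ x, Mod.mem x (b.val U) → Φ U x := by
  refine forces_forall fun a => forces_imp fun q hq h1 => ?_
  obtain ⟨r, hr, i, h2, h3⟩ := h1.exists_el
  obtain ⟨s, hs, h4⟩ := h i r (hr.trans hq) h2
  exact ⟨s, hs.trans hr, ((h3.mono hs).and h4).imp fun U h => h.1 ▸ h.2⟩

/-- a statement forced by every condition is true in every model -/
theorem of_forces_all {Φ : Gen P → Prop} [Clopen Φ] (h : ∀ p, ∃ q ≤ p, Forces q Φ) (U : Gen P) :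
    Φ U := of_truth (U.2 _ (fun _ _ hq h => Forces.mono h hq) h)

theorem forall_mem {Φ : ∀ U : Gen P, Mod U → Prop}
    [∀ a : Name P, Clopen fun U => Φ U (a.val U)] {b : Name P}
    (h : ∀ i, ∀ q ≤ b.cond i, ∃ r ≤ q, Forces r fun U => Φ U ((b.el i).val U)) (U : Gen P) :
    ∀ x, Mod.mem x (b.val U) → Φ U x :=
  of_forces_all (Φ := fun U => ∀ x, Mod.mem x (b.val U) → Φ U x)
    (fun p => ⟨p, le_rfl, forces_forall_mem fun i q _ hq => h i q hq⟩) U

end Pool.Agent.Lib.PosetForcing
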