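import Mathlib

set_option autoImplicit false

/-! The poset of countable two-valued functions with domain inside `X` (adding subsets of `ω₁`). -/

namespace Pool.Agent.Lib.PosetForcing

universe u

/-- countable functional sets of pairs -/
structure Cond (X : Type u) : Type u where
  /-- the graph -/
  s : Set (X × Bool)
  cnt : s.Countable
  fn : ∀ x b b', (x, b) ∈ s → (x, b') ∈ s → b = b'

namespace Cond
variable {X : Type u}

instance : Preorder (Cond X) where
  le p q := q.s ⊆ p.s
  le_refl _ := subset_rfl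
  le_trans _ _ _ h h' := h'.trans h

instance : OrderTop (Cond X) where
  top := ⟨∅, Set.countable_empty, fun _ _ _ h => h.elim⟩
  le_top _ := Set.empty_subset _

theorem le_def {p q : Cond X} : p ≤ q ↔ q.s ⊆ p.s := Iff.rfl

/-- compatibility -/
def Compat (p q : Cond X) : Prop := ∀ x b b', (x, b) ∈ p.s → (x, b') ∈ q.s → b = b'

theorem Compat.symm {p q : Cond X} (h : Compat p q) : Compat q p :=
  fun x b b' h1 h2 => (h x b' b h2 h1).symm

theorem compat_of_le {p q r : Cond X} (h : r ≤ p) (h' : r ≤ q) : Compat p q :=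
  fun x b b' h1 h2 => r.fn x b b' (h h1) (h' h2)

theorem exists_lower {ι : Type*} [Countable ι] (p : ι → Cond X) (h : ∀ i j, Compat (p i) (p j)) :
    ∃ q, ∀ i, q ≤ p i := by
  refine ⟨⟨⋃ i, (p i).s, Set.countable_iUnion fun i => (p i).cnt, ?_⟩,
    fun i => Set.subset_iUnion (fun i => (p i).s) i⟩
  intro x b b' h1 h2
  obtain ⟨i, hi⟩ := Set.mem_iUnion.1 h1
  obtain ⟨j, hj⟩ := Set.mem_iUnion.1 h2
  exact h i j x b b' hi hj

theorem Compat.exists_le {p q : Cond X} (h : Compat p q) : ∃ r, r ≤ p ∧ r ≤ q := by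
  obtain ⟨r, hr⟩ := exists_lower (fun b : Bool => if b then p else q) (by
    rintro (_ | _) (_ | _)
    · exact q.fn
    · exact h.symm
    · exact h
    · exact p.fn)
  exact ⟨r, hr true, hr false⟩

theorem exists_lower_of_antitone (p : ℕ → Cond X) (h : ∀ n, p (n + 1) ≤ p n) :
    ∃ q, ∀ i, q ≤ p i := by
  have h1 : Antitone p := antitone_nat_of_succ_le h
  refine exists_lower p fun i j => ?_
  rcases le_total i j with hij | hij
  · exact compat_of_le (h1 hij) le_rfl
  · exact compat_of_le le_rfl (h1 hij)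

end Cond

/-- in a preorder where decreasing sequences have lower bounds, countably many sets that are dense
open below `p` are met by one extension of `p` -/
theorem exists_le_forall {P : Type*} [Preorder P]
    (hσ : ∀ p : ℕ → P, (∀ n, p (n + 1) ≤ p n) → ∃ q, ∀ i, q ≤ p i) (p : P) (R : ℕ → P → Prop)
    (hR : ∀ n q r, r ≤ q → R n q → R n r) (h : ∀ n, ∀ q ≤ p, ∃ r ≤ q, R n r) :
    ∃ q ≤ p, ∀ n, R n q := by
  have : ∀ n (q : {q // q ≤ p}), ∃ r : {q // q ≤ p}, r.1 ≤ q.1 ∧ R n r.1 := fun n q => by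
    obtain ⟨r, hr, h1⟩ := h n q.1 q.2
    exact ⟨⟨r, hr.trans q.2⟩, hr, h1⟩
  choose g hg hg' using this
  let x : ℕ → {q // q ≤ p} := fun n => Nat.rec ⟨p, le_rfl⟩ g n
  obtain ⟨q, hq⟩ := hσ (fun n => (x n).1) fun n => hg n (x n)
  exact ⟨q, hq 0, fun n => hR n _ _ (hq (n + 1)) (hg' n (x n))⟩

end Pool.Agent.Lib.PosetForcing
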