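import Pool.Agent.Lib.PosetForcing.Names

set_option autoImplicit false

/-! Every quotient model `Mod U` satisfies ZFC. -/

namespace Pool.Agent.Lib.PosetForcing

universe u

variable {P : Type u} [Preorder P]

theorem Mod.ext {U : Gen P} (x y : Mod U) (h : ∀ z, Mod.mem z x ↔ Mod.mem z y) : x = y := by
  obtain ⟨a, rfl⟩ := x.exists_name
  obtain ⟨b, rfl⟩ := y.exists_name
  rw [val_eq_iff]
  refine Filter.mem_of_superset
    (truth (Φ := fun U => ∀ z, Mod.mem z (a.val U) ↔ Mod.mem z (b.val U)) h) fun p hp => ?_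
  refine (fEq_iff _ _ _).2 ⟨fun i q hq hc => ?_, fun i q hq hc => ?_⟩
  · have := ((Forces.mono hp hq).and (forces_el_mem i hc)).imp fun U h => (h.1 _).1 h.2
    exact forces_mem_iff'.1 this q le_rfl
  · have := ((Forces.mono hp hq).and (forces_el_mem i hc)).imp fun U h => (h.1 _).2 h.2
    obtain ⟨r, hr, j, h1, h2⟩ := forces_mem_iff'.1 this q le_rfl
    exact ⟨r, hr, j, h1, h2.symm⟩

/-- induction along membership for families satisfying the truth lemma -/
theorem Mod.induction (Φ : ∀ U : Gen P, Mod U → Prop)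
    [∀ a : Name P, Clopen fun U => Φ U (a.val U)] (U : Gen P)
    (h : ∀ y, (∀ z, Mod.mem z y → Φ U z) → Φ U y) (x : Mod U) : Φ U x := by
  obtain ⟨a, rfl⟩ := x.exists_name
  have key : ∀ (a : Name P) (U : Gen P),
      (∀ y, (∀ z, Mod.mem z y → Φ U z) → Φ U y) → Φ U (a.val U) := by
    intro a
    induction a with
    | mk ι A c ih =>
      intro U h
      refine h _ fun z hz => ?_
      exact forall_mem (b := .mk ι A c)
        (Φ := fun U z => (∀ y, (∀ z, Mod.mem z y → Φ U z) → Φ U y) → Φ U z)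
        (fun i q _ => ⟨q, le_rfl, Forces.of_forall (ih i) q⟩) U z hz h
  exact key a U h

theorem Mod.found {U : Gen P} (x : Mod U) (h : ∃ y, Mod.mem y x) :
    ∃ y, Mod.mem y x ∧ ∀ z, Mod.mem z y → ¬ Mod.mem z x := by
  obtain ⟨a, rfl⟩ := x.exists_name
  by_contra hcon
  obtain ⟨y, hy⟩ := h
  refine Mod.induction (fun U y => ¬ Mod.mem y (a.val U)) U (fun y h1 h2 => ?_) y hy
  exact hcon ⟨y, h2, h1⟩

theorem Mod.not_mem_self {U : Gen P} (x : Mod U) : ¬ Mod.mem x x :=
  Mod.induction (fun _ y => ¬ Mod.mem y y) U (fun y h1 h2 => h1 y h2 h2) x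

/-- separation name -/
def sepName (a : Name P) (Φ : ∀ U : Gen P, Mod U → Prop) : Name P :=
  .mk {x : a.idx × P // x.2 ≤ a.cond x.1 ∧ Forces x.2 fun U => Φ U ((a.el x.1).val U)}
    (fun x => a.el x.1.1) (fun x => x.1.2)

theorem mem_sepName (a : Name P) (Φ : ∀ U : Gen P, Mod U → Prop)
    [∀ a : Name P, Clopen fun U => Φ U (a.val U)] (U : Gen P) (x : Mod U) :
    Mod.mem x ((sepName a Φ).val U) ↔ Mod.mem x (a.val U) ∧ Φ U x := by
  constructor
  · exact forall_mem (b := sepName a Φ) (Φ := fun U x => Mod.mem x (a.val U) ∧ Φ U x)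
      (fun i q hq => ⟨q, le_rfl, ((forces_el_mem i.1.1 i.2.1).and i.2.2).mono hq⟩) U x
  · rintro ⟨h1, h2⟩
    refine forall_mem (b := a) (Φ := fun U x => Φ U x → Mod.mem x ((sepName a Φ).val U))
      (fun i q hq => ⟨q, le_rfl, forces_imp fun r hr h => ⟨r, le_rfl, ?_⟩⟩) U x h1 h2
    exact forces_el_mem (b := sepName a Φ) ⟨(i, r), hr.trans hq, h⟩ le_rfl

theorem Mod.sep (Φ : ∀ U : Gen P, Mod U → Prop)
    [∀ a : Name P, Clopen fun U => Φ U (a.val U)] (U : Gen P) (x : Mod U) :
    ∃ b, ∀ z, Mod.mem z b ↔ Mod.mem z x ∧ Φ U z := by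
  obtain ⟨a, rfl⟩ := x.exists_name
  exact ⟨_, mem_sepName a Φ U⟩

/-- union name -/
def unionName (a : Name P) : Name P :=
  .mk (Σ i : a.idx, Σ j : (a.el i).idx, {q : P // q ≤ a.cond i ∧ q ≤ (a.el i).cond j})
    (fun x => (a.el x.1).el x.2.1) (fun x => x.2.2.1)

theorem mem_unionName (a : Name P) (U : Gen P) (x : Mod U) :
    Mod.mem x ((unionName a).val U) ↔ ∃ y, Mod.mem y (a.val U) ∧ Mod.mem x y := by
  constructor
  · exact forall_mem (b := unionName a) (Φ := fun U x => ∃ y, Mod.mem y (a.val U) ∧ Mod.mem x y)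
      (fun i q hq => ⟨q, le_rfl, (((forces_el_mem i.1 i.2.2.2.1).and
        (forces_el_mem i.2.1 i.2.2.2.2)).mono hq).imp fun U h => ⟨_, h⟩⟩) U x
  · rintro ⟨y, h1, h2⟩
    refine forall_mem (b := a)
      (Φ := fun U y => ∀ x, Mod.mem x y → Mod.mem x ((unionName a).val U))
      (fun i q hq => ⟨q, le_rfl, forces_forall_mem fun j r hr h => ⟨r, le_rfl, ?_⟩⟩) U y h1 x h2
    exact forces_el_mem (b := unionName a) ⟨i, j, r, hr.trans hq, h⟩ le_rfl

variable [OrderTop P]

/-- a family of names as a name -/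
def fam {ι : Type u} (A : ι → Name P) : Name P := .mk ι A fun _ => ⊤

theorem mem_fam {ι : Type u} (A : ι → Name P) (i : ι) (U : Gen P) :
    Mod.mem ((A i).val U) ((fam A).val U) :=
  of_forces_all (Φ := fun U => Mod.mem ((A i).val U) ((fam A).val U))
    (fun p => ⟨p, le_rfl, forces_el_mem (b := fam A) i le_top⟩) U

theorem forall_mem_fam {ι : Type u} {A : ι → Name P} {Φ : ∀ U : Gen P, Mod U → Prop}
    [∀ a : Name P, Clopen fun U => Φ U (a.val U)] (h : ∀ i U, Φ U ((A i).val U)) (U : Gen P) :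
    ∀ x, Mod.mem x ((fam A).val U) → Φ U x :=
  forall_mem (b := fam A) (fun i q _ => ⟨q, le_rfl, Forces.of_forall (h i) q⟩) U

theorem forces_forall_mem_fam {ι : Type u} {A : ι → Name P} {Φ : ∀ U : Gen P, Mod U → Prop}
    [∀ a : Name P, Clopen fun U => Φ U (a.val U)] {p : P}
    (h : ∀ i, ∀ q ≤ p, ∃ r ≤ q, Forces r fun U => Φ U ((A i).val U)) :
    Forces p fun U => ∀ x, Mod.mem x ((fam A).val U) → Φ U x :=
  forces_forall_mem (b := fam A) fun i q hq _ => h i q hq

theorem Forces.exists_fam {ι : Type u} {A : ι → Name P} {a : Name P} {p : P}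
    (h : Forces p fun U => Mod.mem (a.val U) ((fam A).val U)) :
    ∃ q ≤ p, ∃ i, Forces q fun U => a.val U = (A i).val U := by
  obtain ⟨q, hq, i, -, h2⟩ := h.exists_el
  exact ⟨q, hq, i, h2⟩

/-- unordered pair name -/
def upairName (a b : Name P) : Name P := fam fun i : ULift.{u} Bool => if i.down then a else b

theorem mem_upairName (a b : Name P) (U : Gen P) (x : Mod U) :
    Mod.mem x ((upairName a b).val U) ↔ x = a.val U ∨ x = b.val U := by
  constructor
  · refine forall_mem_fam (Φ := fun U x => x = a.val U ∨ x = b.val U) ?_ U x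
    rintro ⟨_ | _⟩ U <;> simp
  · rintro (rfl | rfl)
    · exact mem_fam (fun i : ULift.{u} Bool => if i.down then a else b) ⟨true⟩ U
    · exact mem_fam (fun i : ULift.{u} Bool => if i.down then a else b) ⟨false⟩ U

/-- a name containing all subsets of `a` -/
def prePow (a : Name P) : Name P :=
  fam fun S : Set (a.idx × P) => .mk S (fun x => a.el x.1.1) (fun x => x.1.2)

theorem mem_prePow (a : Name P) (U : Gen P) (x : Mod U)
    (h : ∀ y, Mod.mem y x → Mod.mem y (a.val U)) : Mod.mem x ((prePow a).val U) := by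
  obtain ⟨b, rfl⟩ := x.exists_name
  have e : b.val U = (sepName a fun U y => Mod.mem y (b.val U)).val U := by
    refine Mod.ext _ _ fun z => ?_
    rw [mem_sepName]
    exact ⟨fun hz => ⟨h z hz, hz⟩, fun hz => hz.2⟩
  rw [e]
  exact mem_fam (fun S : Set (a.idx × P) => Name.mk S (fun x => a.el x.1.1) (fun x => x.1.2))
    {x | x.2 ≤ a.cond x.1 ∧ Forces x.2 fun U => Mod.mem ((a.el x.1).val U) (b.val U)} U

/-- power set name -/
def powName (a : Name P) : Name P :=
  sepName (prePow a) fun U x => ∀ y, Mod.mem y x → Mod.mem y (a.val U)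

theorem mem_powName (a : Name P) (U : Gen P) (x : Mod U) :
    Mod.mem x ((powName a).val U) ↔ ∀ y, Mod.mem y x → Mod.mem y (a.val U) := by
  rw [powName, mem_sepName]
  exact ⟨fun h => h.2, fun h => ⟨mem_prePow a U x h, h⟩⟩

theorem Mod.collection (Φ : ∀ U : Gen P, Mod U → Mod U → Prop)
    [∀ a b : Name P, Clopen fun U => Φ U (a.val U) (b.val U)] (a : Name P) :
    ∃ b : Name P, ∀ U x, Mod.mem x (a.val U) → (∃ y, Φ U x y) →
      ∃ y, Mod.mem y (b.val U) ∧ Φ U x y := by
  choose B hB using fun i : a.idx => max_principle fun U y => Φ U ((a.el i).val U) y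
  refine ⟨fam B, fun U => forall_mem
    (Φ := fun U x => (∃ y, Φ U x y) → ∃ y, Mod.mem y ((fam B).val U) ∧ Φ U x y)
    (fun i q _ => ⟨q, le_rfl, Forces.of_forall (fun U h => ⟨_, mem_fam B i U, hB i U h⟩) q⟩) U⟩

/-- names for natural numbers -/
def natName (n : ℕ) : Name P := fam fun i : ULift.{u} (Fin n) => natName i.down.val
termination_by n
decreasing_by exact i.down.2

/-- name for the set of natural numbers -/
def omegaName : Name P := fam fun n : ULift.{u} ℕ => natName n.down

theorem natName_mem {m n : ℕ} (h : m < n) (U : Gen P) :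
    Mod.mem ((natName m).val U) ((natName n).val U) := by
  rw [natName.eq_1 n]
  exact mem_fam (fun i : ULift.{u} (Fin n) => natName i.down.val) ⟨⟨m, h⟩⟩ U

theorem forall_mem_natName {n : ℕ} {Φ : ∀ U : Gen P, Mod U → Prop}
    [∀ a : Name P, Clopen fun U => Φ U (a.val U)] (h : ∀ m < n, ∀ U, Φ U ((natName m).val U))
    (U : Gen P) : ∀ x, Mod.mem x ((natName n).val U) → Φ U x := by
  rw [natName.eq_1 n]
  exact forall_mem_fam (fun i U => h _ i.down.2 U) U

instance clopen_exists_lt (n : ℕ) (Φ : ℕ → Gen P → Prop) [∀ m, Clopen (Φ m)] :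
    Clopen fun U => ∃ m < n, Φ m U := by
  induction n with
  | zero => exact Clopen.congr (Φ := fun _ => False) fun U => by simp
  | succ n ih =>
    exact Clopen.congr (Φ := fun U => (∃ m < n, Φ m U) ∨ Φ n U) fun U => Nat.exists_lt_succ_right

theorem mem_natName {n : ℕ} (U : Gen P) (x : Mod U) :
    Mod.mem x ((natName n).val U) ↔ ∃ m < n, x = (natName m).val U :=
  ⟨forall_mem_natName (Φ := fun U x => ∃ m < n, x = (natName m).val U)
    (fun m hm _ => ⟨m, hm, rfl⟩) U x, fun ⟨_, hm, e⟩ => e ▸ natName_mem hm U⟩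

theorem natName_inj {m n : ℕ} {U : Gen P} (h : (natName m).val U = (natName n).val U) : m = n := by
  rcases lt_trichotomy m n with h1 | h1 | h1
  · exact absurd (h ▸ natName_mem h1 U) (Mod.not_mem_self _)
  · exact h1
  · exact absurd (h ▸ natName_mem h1 U) (Mod.not_mem_self _)

theorem natName_mem_iff {m n : ℕ} {U : Gen P} :
    Mod.mem ((natName m).val U) ((natName n).val U) ↔ m < n := by
  rw [mem_natName]
  exact ⟨fun ⟨_, hk, e⟩ => natName_inj e ▸ hk, fun h => ⟨m, h, rfl⟩⟩

theorem natName_succ (n : ℕ) (U : Gen P) :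
    IsSucc Mod.mem ((natName (n + 1)).val U) ((natName n).val U) := by
  intro z
  simp only [mem_natName, Nat.exists_lt_succ_right]

theorem natName_mem_omega (n : ℕ) (U : Gen P) :
    Mod.mem ((natName n).val U) (omegaName.val U) :=
  mem_fam (fun n : ULift.{u} ℕ => natName n.down) ⟨n⟩ U

theorem forall_mem_omega {Φ : ∀ U : Gen P, Mod U → Prop}
    [∀ a : Name P, Clopen fun U => Φ U (a.val U)] (h : ∀ n U, Φ U ((natName n).val U))
    (U : Gen P) : ∀ x, Mod.mem x (omegaName.val U) → Φ U x :=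
  forall_mem_fam (fun i U => h i.down U) U

theorem forces_forall_mem_omega {Φ : ∀ U : Gen P, Mod U → Prop}
    [∀ a : Name P, Clopen fun U => Φ U (a.val U)] {p : P}
    (h : ∀ n, ∀ q ≤ p, ∃ r ≤ q, Forces r fun U => Φ U ((natName n).val U)) :
    Forces p fun U => ∀ x, Mod.mem x (omegaName.val U) → Φ U x :=
  forces_forall_mem_fam fun i => h i.down

instance clopen_isSucc (a b : Name P) :
    Clopen fun U : Gen P => IsSucc Mod.mem (a.val U) (b.val U) := by
  unfold IsSucc; infer_instance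

instance clopen_isInductive (a : Name P) :
    Clopen fun U : Gen P => IsInductive Mod.mem (a.val U) := by
  unfold IsInductive; infer_instance

theorem omega_inductive (U : Gen P) : IsInductive Mod.mem (omegaName.val U) := by
  refine ⟨⟨_, natName_mem_omega 0 U, fun x => by simp [mem_natName]⟩, ?_⟩
  exact forall_mem_omega (Φ := fun U x => ∃ y, Mod.mem y (omegaName.val U) ∧ IsSucc Mod.mem y x)
    (fun n U => ⟨_, natName_mem_omega (n + 1) U, natName_succ n U⟩) U

theorem isOmega_omega (U : Gen P) : IsOmega Mod.mem (omegaName.val U) := by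
  refine ⟨omega_inductive U, fun w hw x hx => ?_⟩
  revert w
  refine forall_mem_omega (Φ := fun U x => ∀ w, IsInductive Mod.mem w → Mod.mem x w)
    (fun n U w hw => ?_) U x hx
  induction n with
  | zero =>
    obtain ⟨e, he, he'⟩ := hw.1
    have : e = (natName 0).val U := Mod.ext _ _ fun z => by simp [mem_natName, he']
    exact this ▸ he
  | succ n ih =>
    obtain ⟨y, hy, hy'⟩ := hw.2 _ ih
    have : y = (natName (n + 1)).val U :=
      Mod.ext _ _ fun z => (hy' z).trans (natName_succ n U z).symm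
    exact this ▸ hy

theorem IsOmega.eq_omega {U : Gen P} {w : Mod U} (h : IsOmega Mod.mem w) : w = omegaName.val U :=
  Mod.ext _ _ fun z => ⟨h.2 _ (omega_inductive U) z, (isOmega_omega U).2 _ h.1 z⟩

omit [OrderTop P] in
/-- among a family of names, below any condition the value of `A i` gets a least index -/
theorem exists_least_index {ι : Type*} (r : ι → ι → Prop) (hr : WellFounded r) (A : ι → Name P)
    (i : ι) (p : P) : ∃ q ≤ p, ∃ j, (Forces q fun U => (A i).val U = (A j).val U) ∧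
      ∀ k, r k j → Forces q fun U => (A j).val U ≠ (A k).val U := by
  obtain ⟨j, ⟨q, hq, hj⟩, hmin⟩ := hr.has_min
    {j | ∃ q ≤ p, Forces q fun U => (A i).val U = (A j).val U}
    ⟨i, p, le_rfl, Forces.of_forall (fun _ => rfl) p⟩
  refine ⟨q, hq, j, hj, fun k hk => forces_not_iff.2 fun s hs h => ?_⟩
  exact hmin k ⟨s, hs.trans hq, ((hj.mono hs).and h).imp fun U h => h.1.trans h.2⟩ hk

omit [OrderTop P] in
theorem Mod.choice {U : Gen P} (x : Mod U) (h1 : ∀ y, Mod.mem y x → ∃ z, Mod.mem z y)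
    (h2 : ∀ y y' z, Mod.mem y x → Mod.mem y' x → Mod.mem z y → Mod.mem z y' → y = y') :
    ∃ c, ∀ y, Mod.mem y x → ∃! z, Mod.mem z y ∧ Mod.mem z c := by
  obtain ⟨a, rfl⟩ := x.exists_name
  choose B hB using fun i : a.idx => max_principle fun U y => Mod.mem y ((a.el i).val U)
  let r : a.idx → a.idx → Prop := WellOrderingRel
  let c : Name P := .mk {x : a.idx × P // (Forces x.2 fun U => Mod.mem ((a.el x.1).val U) (a.val U))
      ∧ ∀ k, r k x.1 → Forces x.2 fun U => (a.el x.1).val U ≠ (a.el k).val U}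
    (fun x => B x.1.1) (fun x => x.1.2)
  have e1 : ∀ y, Mod.mem y (a.val U) → (∃ z, Mod.mem z y) →
      ∃ z, Mod.mem z y ∧ Mod.mem z (c.val U) := by
    refine forall_mem
      (Φ := fun U y => (∃ z, Mod.mem z y) → ∃ z, Mod.mem z y ∧ Mod.mem z (c.val U))
      (fun i q hq => ?_) U
    obtain ⟨s, hs, j, hj, hmin⟩ := exists_least_index r (IsWellFounded.wf) a.el i q
    have h3 : Forces s fun U => Mod.mem ((a.el j).val U) (a.val U) :=
      (hj.and (forces_el_mem i (hs.trans hq))).imp fun U h => h.1 ▸ h.2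
    refine ⟨s, hs, (hj.and (forces_el_mem (b := c) ⟨(j, s), h3, hmin⟩ le_rfl)).imp ?_⟩
    rintro U ⟨h4, h5⟩ h6
    rw [h4] at h6 ⊢
    exact ⟨_, hB j U h6, h5⟩
  have e2 : ∀ z, Mod.mem z (c.val U) → ∀ z', Mod.mem z' (c.val U) →
      (∀ y, Mod.mem y (a.val U) → ∃ z, Mod.mem z y) →
      (∀ y y' z, Mod.mem y (a.val U) → Mod.mem y' (a.val U) → Mod.mem z y → Mod.mem z y' →
        y = y') → ∀ y, Mod.mem y (a.val U) → Mod.mem z y → Mod.mem z' y → z = z' := by
    refine forall_mem (Φ := fun U z => ∀ z', Mod.mem z' (c.val U) →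
      (∀ y, Mod.mem y (a.val U) → ∃ z, Mod.mem z y) →
      (∀ y y' z, Mod.mem y (a.val U) → Mod.mem y' (a.val U) → Mod.mem z y → Mod.mem z y' →
        y = y') → ∀ y, Mod.mem y (a.val U) → Mod.mem z y → Mod.mem z' y → z = z')
      (fun i q hq => ⟨q, le_rfl, forces_forall_mem fun j s hs hj => ⟨s, le_rfl, ?_⟩⟩) U
    obtain ⟨⟨i, p⟩, hi1, hi2⟩ := i
    obtain ⟨⟨j, p'⟩, hj1, hj2⟩ := j
    have hsp : s ≤ p := hs.trans hq
    have hsp' : s ≤ p' := hj
    intro U hU g1 g2 y hy hz hz'
    have k1 := hi1.mono hsp U hU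
    have k2 := hj1.mono hsp' U hU
    have k3 : (a.el i).val U = (a.el j).val U :=
      (g2 _ _ _ k1 hy (hB i U (g1 _ k1)) hz).trans (g2 _ _ _ hy k2 hz' (hB j U (g1 _ k2)))
    rcases trichotomous_of r i j with h | h | h
    · exact absurd k3.symm ((hj2 i h).mono hsp' U hU)
    · subst h; rfl
    · exact absurd k3 ((hi2 j h).mono hsp U hU)
  refine ⟨c.val U, fun y hy => ?_⟩
  obtain ⟨z, hz⟩ := e1 y hy (h1 y hy)
  exact ⟨z, hz, fun z' hz' => e2 z' hz'.2 z hz.2 h1 h2 y hy hz'.1 hz.1⟩

omit [OrderTop P] in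
theorem val_update (v : ℕ → Name P) (i : ℕ) (a : Name P) (U : Gen P) :
    Function.update (fun n => (v n).val U) i (a.val U) =
      fun n => (Function.update v i a n).val U := by
  funext n
  by_cases h : n = i
  · subst h; simp
  · simp [h]

omit [OrderTop P] in
theorem clopen_sat (φ : Fml) (v : ℕ → Name P) :
    Clopen fun U : Gen P => Sat Mod.mem φ fun n => (v n).val U := by
  induction φ generalizing v with
  | mem i j => exact clopen_mem _ _
  | eq i j => exact clopen_eq _ _
  | neg φ ih => exact @clopen_not _ _ _ (ih v)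
  | and φ ψ ih ih' => exact @clopen_and _ _ _ _ (ih v) (ih' v)
  | all i φ ih =>
    exact @clopen_forall _ _
      (fun U x => Sat Mod.mem φ (Function.update (fun n => (v n).val U) i x))
      fun a => by simpa only [val_update] using ih _

/-- every quotient model satisfies ZFC -/
theorem isZFC (U : Gen P) : IsZFC (M := Mod U) Mod.mem where
  ext := Mod.ext
  found := Mod.found
  pair a b := by
    obtain ⟨a, rfl⟩ := a.exists_name
    obtain ⟨b, rfl⟩ := b.exists_name
    exact ⟨_, mem_upairName a b U⟩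
  union a := by
    obtain ⟨a, rfl⟩ := a.exists_name
    exact ⟨_, mem_unionName a U⟩
  power a := by
    obtain ⟨a, rfl⟩ := a.exists_name
    exact ⟨_, mem_powName a U⟩
  inf := ⟨_, omega_inductive U⟩
  sep φ v a := by
    choose w hw using fun n => (v n).exists_name
    obtain rfl : v = fun n => (w n).val U := funext fun n => (hw n).symm
    exact @Mod.sep _ _ (fun U x => Sat Mod.mem φ (Function.update (fun n => (w n).val U) 0 x))
      (fun a => by simpa only [val_update] using clopen_sat _ _) U a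
  repl φ v a h := by
    choose w hw using fun n => (v n).exists_name
    obtain rfl : v = fun n => (w n).val U := funext fun n => (hw n).symm
    obtain ⟨a, rfl⟩ := a.exists_name
    have : ∀ a b : Name P, Clopen fun U => Sat Mod.mem φ
        (Function.update (Function.update (fun n => (w n).val U) 0 (a.val U)) 1 (b.val U)) :=
      fun a b => by simpa only [val_update] using clopen_sat _ _
    obtain ⟨b, hb⟩ := Mod.collection (fun U x y => Sat Mod.mem φ
        (Function.update (Function.update (fun n => (w n).val U) 0 x) 1 y)) a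
    obtain ⟨c, hc⟩ := Mod.sep (fun U y => ∃ x, Mod.mem x (a.val U) ∧ Sat Mod.mem φ
        (Function.update (Function.update (fun n => (w n).val U) 0 x) 1 y)) U (b.val U)
    refine ⟨c, fun y => (hc y).trans ⟨fun h => h.2, fun ⟨x, hx, hxy⟩ => ⟨?_, x, hx, hxy⟩⟩⟩
    obtain ⟨y', hy', hxy'⟩ := hb U x hx ⟨y, hxy⟩
    exact (h x hx).unique hxy' hxy ▸ hy'
  choice := Mod.choice

end Pool.Agent.Lib.PosetForcing
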