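import Mathlib

set_option autoImplicit false

/-! Statement layer: models of ZFC as structures `(M, mem)`, and basic internal notions. -/

namespace Pool.Agent.Lib.PosetForcing

universe v

/-- first-order formulas in the language of set theory, variables indexed by `ℕ` -/
inductive Fml : Type
  | mem (i j : ℕ) : Fml
  | eq (i j : ℕ) : Fml
  | neg (φ : Fml) : Fml
  | and (φ ψ : Fml) : Fml
  | all (i : ℕ) (φ : Fml) : Fml

variable {M : Type v} (mem : M → M → Prop)

/-- Tarski satisfaction in the structure `(M, mem)` under the assignment `v` -/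
def Sat : Fml → (ℕ → M) → Prop
  | .mem i j, v => mem (v i) (v j)
  | .eq i j, v => v i = v j
  | .neg φ, v => ¬ Sat φ v
  | .and φ ψ, v => Sat φ v ∧ Sat ψ v
  | .all i φ, v => ∀ x, Sat φ (Function.update v i x)

/-- `(M, mem)` is a model of ZFC; `mem x y` reads `x ∈ y`. -/
structure IsZFC : Prop where
  ext : ∀ a b, (∀ x, mem x a ↔ mem x b) → a = b
  found : ∀ a, (∃ x, mem x a) → ∃ x, mem x a ∧ ∀ y, mem y x → ¬ mem y a
  pair : ∀ a b, ∃ c, ∀ x, mem x c ↔ x = a ∨ x = b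
  union : ∀ a, ∃ c, ∀ x, mem x c ↔ ∃ y, mem y a ∧ mem x y
  power : ∀ a, ∃ c, ∀ x, mem x c ↔ ∀ y, mem y x → mem y a
  inf : ∃ w, (∃ e, mem e w ∧ ∀ x, ¬ mem x e) ∧
    ∀ x, mem x w → ∃ y, mem y w ∧ ∀ z, mem z y ↔ mem z x ∨ z = x
  sep : ∀ (φ : Fml) (v : ℕ → M) (a : M),
    ∃ b, ∀ x, mem x b ↔ mem x a ∧ Sat mem φ (Function.update v 0 x)
  repl : ∀ (φ : Fml) (v : ℕ → M) (a : M),
    (∀ x, mem x a → ∃! y, Sat mem φ (Function.update (Function.update v 0 x) 1 y)) →
    ∃ b, ∀ y, mem y b ↔ ∃ x, mem x a ∧ Sat mem φ (Function.update (Function.update v 0 x) 1 y)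
  choice : ∀ a, (∀ x, mem x a → ∃ z, mem z x) →
    (∀ x y z, mem x a → mem y a → mem z x → mem z y → x = y) →
    ∃ c, ∀ x, mem x a → ∃! z, mem z x ∧ mem z c

/-- `p = {a, b}` -/
def IsUPair (p a b : M) : Prop := ∀ x, mem x p ↔ x = a ∨ x = b

/-- `p = (a, b) = {{a}, {a, b}}` -/
def IsPair (p a b : M) : Prop := ∀ x, mem x p ↔ IsUPair mem x a a ∨ IsUPair mem x a b

/-- `(x, y) ∈ f` -/
def App (f x y : M) : Prop := ∃ p, mem p f ∧ IsPair mem p x y

/-- `f` is a function with domain `a` all of whose values satisfy `V` -/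
def IsFunOn (f a : M) (V : M → Prop) : Prop :=
  (∀ p, mem p f → ∃ x y, IsPair mem p x y ∧ mem x a ∧ V y) ∧
  (∀ x, mem x a → ∃ y, App mem f x y) ∧
  (∀ x y y', App mem f x y → App mem f x y' → y = y')

/-- `f : a → b` -/
def IsFun (f a b : M) : Prop := IsFunOn mem f a (fun y => mem y b)

/-- `y = x ∪ {x}` -/
def IsSucc (y x : M) : Prop := ∀ z, mem z y ↔ mem z x ∨ z = x

/-- `w` contains the empty set and is closed under successor -/
def IsInductive (w : M) : Prop :=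
  (∃ e, mem e w ∧ ∀ x, ¬ mem x e) ∧ ∀ x, mem x w → ∃ y, mem y w ∧ IsSucc mem y x

/-- `w = ω`, the least inductive set -/
def IsOmega (w : M) : Prop :=
  IsInductive mem w ∧ ∀ w', IsInductive mem w' → ∀ x, mem x w → mem x w'

/-- `h` is the restriction of `f` to `n` -/
def IsRestr (h f n : M) : Prop :=
  ∀ p, mem p h ↔ mem p f ∧ ∃ x y, IsPair mem p x y ∧ mem x n

end Pool.Agent.Lib.PosetForcing
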